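import Pool.Agent.W2helper94.CV.E

set_option autoImplicit false

/-!
The sum of the tubes of a family of lines with a one sided bound for its rows, at one scale: energy.
-/

open MeasureTheory Set Metric
open scoped ENNReal NNReal

namespace Pool.Agent.W2helper94.CT

open Pool.Agent.W2helper94.KC Pool.Agent.W2helper94.CV
open Pool.Agent.H803R2.Kak

variable {d : ℕ}

/-- The row bound at the scale `r`, for the heights in `P` relative to `τ`. -/
def Row1 (P : Set ℝ) (D : Set (E d)) (φ : E d → ℝ) (b : E d → E d) (τ : E d → ℝ) (r C : ℝ) : Prop :=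
  ∀ lam c : ℝ, 0 < lam → r ≤ 8 * lam → ∀ w ∈ D,
    ∫⁻ v in D, le1 (φ w) (φ v) * ∫⁻ s in Icc c (c + 4),
      sI P (s - τ v) * oo lam (s - τ v) * ic r ((b v + s • v) - (b w + s • w)) ≤
      ENNReal.ofReal (C * r ^ d * lam⁻¹ ^ (d - 1) * ell r)

/-- The measure of the directions in `D` whose tube contains the point, at a height in `S`
relative to `τ`. -/
noncomputable def G1 (D : Set (E d)) (b : E d → E d) (τ : E d → ℝ) (δ : ℝ) (S : Set ℝ)
    (q : E d × ℝ) : ℝ≥0∞ :=
  ∫⁻ u in D, sI S (q.2 - τ u) * ic δ (q.1 - (b u + q.2 • u))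

variable {b : E d → E d} {τ : E d → ℝ}

theorem meas_c (hb : Measurable b) (hτ : Measurable τ) (δ : ℝ) {S : Set ℝ} (hS : MeasurableSet S) :
    Measurable (fun w : (E d × ℝ) × E d =>
      sI S (w.1.2 - τ w.2) * ic δ (w.1.1 - (b w.2 + w.1.2 • w.2))) := by
  have t : Measurable (fun w : (E d × ℝ) × E d => w.1.2) := measurable_snd.comp measurable_fst
  refine ((measurable_sI hS).comp (t.sub (hτ.comp measurable_snd))).mul ((measurable_ic δ).comp ?_)
  exact (measurable_fst.comp measurable_fst).sub
    ((hb.comp measurable_snd).add (t.smul measurable_snd))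

theorem measurable_G1 (D : Set (E d)) (hb : Measurable b) (hτ : Measurable τ) (δ : ℝ) {S : Set ℝ}
    (hS : MeasurableSet S) : Measurable (G1 D b τ δ S) :=
  (meas_c hb hτ δ hS).lintegral_prod_right'

theorem G1_le (D : Set (E d)) (b : E d → E d) (τ : E d → ℝ) (δ : ℝ) (S : Set ℝ) (q : E d × ℝ) :
    G1 D b τ δ S q ≤ volume D := by
  unfold G1
  calc ∫⁻ u in D, sI S (q.2 - τ u) * ic δ (q.1 - (b u + q.2 • u)) ≤ ∫⁻ _u in D, 1 := by
        apply lintegral_mono
        intro u
        calc sI S (q.2 - τ u) * ic δ (q.1 - (b u + q.2 • u)) ≤ 1 * 1 := by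
              gcongr
              · exact sI_le _ _
              · exact indicator_le_self' (fun _ _ => zero_le_one) _
          _ = 1 := one_mul 1
    _ = volume D := by rw [lintegral_const, one_mul, Measure.restrict_apply_univ]

theorem G1_int (D : Set (E d)) (hb : Measurable b) (hτ : Measurable τ) (δ : ℝ) {S : Set ℝ}
    (hS : MeasurableSet S) : ∫⁻ q, G1 D b τ δ S q =
      volume D * (volume (closedBall (0 : E d) δ) * volume S) := by
  have h1 := meas_c hb hτ δ hS
  unfold G1
  rw [lintegral_lintegral_swap h1.aemeasurable]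
  have h2 : ∀ u : E d, ∫⁻ q : E d × ℝ, sI S (q.2 - τ u) * ic δ (q.1 - (b u + q.2 • u)) =
      volume (closedBall (0 : E d) δ) * volume S := by
    intro u
    have hpm : Measurable (fun q : E d × ℝ => (q, u)) := measurable_id.prodMk measurable_const
    have h3 : Measurable (fun q : E d × ℝ => sI S (q.2 - τ u) *
        ic δ (q.1 - (b u + q.2 • u))) := by
      have h := h1.comp hpm
      simp only [Function.comp_def] at h
      exact h
    refine (int_symm h3).trans ?_
    have h4 : ∀ t : ℝ, ∫⁻ y : E d, sI S (t - τ u) * ic δ (y - (b u + t • u)) =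
        volume (closedBall (0 : E d) δ) * sI S (t - τ u) := by
      intro t
      rw [lintegral_const_mul _ (meas_ic_sub δ _), lint_ic, mul_comm]
    simp only [h4]
    rw [lintegral_const_mul _ (meas_sI_sub hS _), lint_sI hS]
  simp only [h2]
  rw [lintegral_const, Measure.restrict_apply_univ, mul_comm]

/-- Close pairs at one height. -/
noncomputable def pr (b : E d → E d) (τ : E d → ℝ) (r : ℝ) (S : Set ℝ) (t : ℝ) (u v : E d) : ℝ≥0∞ :=
  sI S (t - τ u) * sI S (t - τ v) * ic r ((b v + t • v) - (b u + t • u))

theorem meas_pr (hb : Measurable b) (hτ : Measurable τ) (r : ℝ) {S : Set ℝ} (hS : MeasurableSet S) :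
    Measurable (fun q : (E d × E d) × ℝ => pr b τ r S q.2 q.1.1 q.1.2) := by
  unfold pr
  have h1 : Measurable (fun q : (E d × E d) × ℝ => q.1.1) := measurable_fst.comp measurable_fst
  have h2 : Measurable (fun q : (E d × E d) × ℝ => q.1.2) := measurable_snd.comp measurable_fst
  exact (((measurable_sI hS).comp (measurable_snd.sub (hτ.comp h1))).mul
    ((measurable_sI hS).comp (measurable_snd.sub (hτ.comp h2)))).mul ((measurable_ic _).comp
    (((hb.comp h2).add (measurable_snd.smul h2)).sub ((hb.comp h1).add (measurable_snd.smul h1))))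

theorem pr_symm (b : E d → E d) (τ : E d → ℝ) (r : ℝ) (S : Set ℝ) (t : ℝ) (u v : E d) :
    pr b τ r S t u v = pr b τ r S t v u := by
  unfold pr
  rw [mul_comm (sI S (t - τ u))]
  congr 1
  rw [← ic_neg]
  congr 1
  abel

/-- The energy is bounded by the pairs. -/
theorem sq_pairs (D : Set (E d)) (hb : Measurable b) (hτ : Measurable τ) (δ : ℝ) {S : Set ℝ}
    (hS : MeasurableSet S) : ∫⁻ q, G1 D b τ δ S q ^ (2 : ℝ) ≤
      volume (closedBall (0 : E d) δ) * ∫⁻ u in D, ∫⁻ v in D, ∫⁻ t, pr b τ (2 * δ) S t u v := by
  have hG := measurable_G1 D hb hτ δ hS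
  have hP := meas_pr hb hτ (2 * δ) hS
  refine (le_of_eq (int_symm (hG.pow_const _))).trans ?_
  have hone : ∀ t : ℝ, ∫⁻ y : E d, G1 D b τ δ S (y, t) ^ (2 : ℝ) ≤
      volume (closedBall (0 : E d) δ) * ∫⁻ u in D, ∫⁻ v in D, pr b τ (2 * δ) S t u v := by
    intro t
    have hm : ∀ y : E d, Measurable (fun u : E d => sI S (t - τ u) * ic δ (y - (b u + t • u))) := by
      intro y
      have h := (meas_c hb hτ δ hS).comp
        (measurable_const.prodMk measurable_id : Measurable (fun u : E d => ((y, t), u)))
      simp only [Function.comp_def] at h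
      exact h
    have hm2 : Measurable (fun q : E d × E d =>
        sI S (t - τ q.2) * ic δ (q.1 - (b q.2 + t • q.2))) := by
      have h := (meas_c hb hτ δ hS).comp
        ((measurable_fst.prodMk measurable_const).prodMk measurable_snd :
          Measurable (fun q : E d × E d => ((q.1, t), q.2)))
      simp only [Function.comp_def] at h
      exact h
    have hpt : ∀ y : E d, G1 D b τ δ S (y, t) ^ (2 : ℝ) = ∫⁻ u in D, ∫⁻ v in D,
        (sI S (t - τ u) * ic δ (y - (b u + t • u))) *
          (sI S (t - τ v) * ic δ (y - (b v + t • v))) := by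
      intro y
      have e : G1 D b τ δ S (y, t) = ∫⁻ u in D, sI S (t - τ u) * ic δ (y - (b u + t • u)) := rfl
      rw [ENNReal.rpow_two, sq]
      conv_lhs => rw [e]
      rw [← lintegral_mul_const _ (hm y)]
      refine lintegral_congr fun u => ?_
      rw [lintegral_const_mul _ (hm y)]
    simp only [hpt]
    have hm3 : Measurable (fun q : (E d × E d) × E d =>
        (sI S (t - τ q.1.2) * ic δ (q.1.1 - (b q.1.2 + t • q.1.2))) *
          (sI S (t - τ q.2) * ic δ (q.1.1 - (b q.2 + t • q.2)))) := by
      exact (hm2.comp measurable_fst).mul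
        (hm2.comp ((measurable_fst.comp measurable_fst).prodMk measurable_snd))
    calc ∫⁻ y : E d, ∫⁻ u in D, ∫⁻ v in D, (sI S (t - τ u) * ic δ (y - (b u + t • u))) *
          (sI S (t - τ v) * ic δ (y - (b v + t • v)))
        = ∫⁻ u in D, ∫⁻ y : E d, ∫⁻ v in D, (sI S (t - τ u) * ic δ (y - (b u + t • u))) *
          (sI S (t - τ v) * ic δ (y - (b v + t • v))) := by
          apply lintegral_lintegral_swap
          exact (hm3.lintegral_prod_right' (ν := (volume : Measure (E d)).restrict D)).aemeasurable
      _ = ∫⁻ u in D, ∫⁻ v in D, ∫⁻ y : E d, (sI S (t - τ u) * ic δ (y - (b u + t • u))) *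
          (sI S (t - τ v) * ic δ (y - (b v + t • v))) := by
          refine lintegral_congr fun u => ?_
          apply lintegral_lintegral_swap
          have h := hm3.comp ((measurable_fst.prodMk measurable_const).prodMk measurable_snd :
            Measurable (fun q : E d × E d => ((q.1, u), q.2)))
          simp only [Function.comp_def] at h
          exact h.aemeasurable
      _ ≤ ∫⁻ u in D, ∫⁻ v in D, volume (closedBall (0 : E d) δ) * pr b τ (2 * δ) S t u v := by
          apply lintegral_mono
          intro u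
          apply lintegral_mono
          intro v
          show ∫⁻ y : E d, (sI S (t - τ u) * ic δ (y - (b u + t • u))) *
            (sI S (t - τ v) * ic δ (y - (b v + t • v))) ≤
            volume (closedBall (0 : E d) δ) * pr b τ (2 * δ) S t u v
          have e1 : ∀ y : E d, (sI S (t - τ u) * ic δ (y - (b u + t • u))) *
            (sI S (t - τ v) * ic δ (y - (b v + t • v))) = (sI S (t - τ u) * sI S (t - τ v)) *
              (ic δ (y - (b u + t • u)) * ic δ (y - (b v + t • v))) := by
            intro y; ring
          simp only [e1]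
          have hs : sI S (t - τ u) * sI S (t - τ v) ≠ ∞ := by
            apply ENNReal.mul_ne_top
            · exact ne_top_of_le_ne_top ENNReal.one_ne_top (sI_le _ _)
            · exact ne_top_of_le_ne_top ENNReal.one_ne_top (sI_le _ _)
          rw [lintegral_const_mul' _ _ hs]
          unfold pr
          calc (sI S (t - τ u) * sI S (t - τ v)) *
                ∫⁻ y : E d, ic δ (y - (b u + t • u)) * ic δ (y - (b v + t • v))
              ≤ (sI S (t - τ u) * sI S (t - τ v)) * (volume (closedBall (0 : E d) δ) *
                ic (2 * δ) ((b u + t • u) - (b v + t • v))) := by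
                gcongr
                exact ball_pair _ _
            _ = _ := by
                have e : ic (2 * δ) ((b u + t • u) - (b v + t • v)) =
                    ic (2 * δ) ((b v + t • v) - (b u + t • u)) := by
                  rw [← ic_neg]
                  congr 1
                  abel
                rw [e]
                ring
      _ = _ := by
          simp only [lintegral_const_mul' _ _ (vol_lt_top (d := d)).ne]
  calc ∫⁻ t, ∫⁻ y : E d, G1 D b τ δ S (y, t) ^ (2 : ℝ)
      ≤ ∫⁻ t, volume (closedBall (0 : E d) δ) *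
          ∫⁻ u in D, ∫⁻ v in D, pr b τ (2 * δ) S t u v := lintegral_mono hone
    _ = volume (closedBall (0 : E d) δ) *
          ∫⁻ t, ∫⁻ u in D, ∫⁻ v in D, pr b τ (2 * δ) S t u v :=
        lintegral_const_mul' _ _ (vol_lt_top (d := d)).ne
    _ = _ := by
        congr 1
        have h1 : Measurable (fun q : (ℝ × E d) × E d => pr b τ (2 * δ) S q.1.1 q.1.2 q.2) := by
          have h := hP.comp (((measurable_snd.comp measurable_fst).prodMk measurable_snd).prodMk
            (measurable_fst.comp measurable_fst) :
            Measurable (fun q : (ℝ × E d) × E d => ((q.1.2, q.2), q.1.1)))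
          simp only [Function.comp_def] at h
          exact h
        rw [lintegral_lintegral_swap (h1.lintegral_prod_right'
          (ν := (volume : Measure (E d)).restrict D)).aemeasurable]
        refine lintegral_congr fun u => ?_
        apply lintegral_lintegral_swap
        have h := h1.comp ((measurable_fst.prodMk measurable_const).prodMk measurable_snd :
          Measurable (fun q : ℝ × E d => ((q.1, u), q.2)))
        simp only [Function.comp_def] at h
        exact h.aemeasurable

/-- The energy of a set of heights. -/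
theorem G1_sq {P : Set ℝ} {D : Set (E d)} (hD : MeasurableSet D) {φ : E d → ℝ} {δ C : ℝ}
    (hrow : Row1 P D φ b τ (2 * δ) C) (hφ : Measurable φ) (hb : Measurable b) (hτ : Measurable τ)
    {lam : ℝ} (hl : 0 < lam) (hrl : 2 * δ ≤ 8 * lam) {S : Set ℝ} (hS : MeasurableSet S)
    (hSP : S ⊆ P) (hS1 : ∀ s ∈ S, lam ≤ |s| ∧ |s| ≤ 1) :
    ∫⁻ q, G1 D b τ δ S q ^ (2 : ℝ) ≤ volume (closedBall (0 : E d) δ) *
      (2 * (ENNReal.ofReal (C * (2 * δ) ^ d * lam⁻¹ ^ (d - 1) * ell (2 * δ)) * volume D)) := by
  refine (sq_pairs D hb hτ δ hS).trans ?_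
  gcongr
  set r := 2 * δ with hr
  set KK' : E d × E d → ℝ≥0∞ := fun q => ∫⁻ t, pr b τ r S t q.1 q.2 with hKK
  have hKm : Measurable KK' := (meas_pr hb hτ r hS).lintegral_prod_right'
  have hsymm : ∀ u v, KK' (u, v) = KK' (v, u) := by
    intro u v
    rw [hKK]
    exact lintegral_congr fun t => pr_symm b τ r S t u v
  have hLm : Measurable (fun q : E d × E d => le1 (φ q.1) (φ q.2) * KK' q) :=
    (measurable_le1 (hφ.comp measurable_fst) (hφ.comp measurable_snd)).mul hKm
  have hLm' : Measurable (fun q : E d × E d => le1 (φ q.2) (φ q.1) * KK' q) :=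
    (measurable_le1 (hφ.comp measurable_snd) (hφ.comp measurable_fst)).mul hKm
  have h1 : ∫⁻ u in D, ∫⁻ v in D, KK' (u, v) ≤
      (∫⁻ u in D, ∫⁻ v in D, le1 (φ u) (φ v) * KK' (u, v)) +
      ∫⁻ u in D, ∫⁻ v in D, le1 (φ v) (φ u) * KK' (u, v) := by
    rw [← lintegral_add_left hLm.lintegral_prod_right']
    apply lintegral_mono
    intro u
    show ∫⁻ v in D, KK' (u, v) ≤ (∫⁻ v in D, le1 (φ u) (φ v) * KK' (u, v)) +
      ∫⁻ v in D, le1 (φ v) (φ u) * KK' (u, v)
    have hL1 : Measurable (fun v => le1 (φ u) (φ v) * KK' (u, v)) := by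
      have h := hLm.comp (measurable_prodMk_left (x := u))
      simp only [Function.comp_def] at h
      exact h
    rw [← lintegral_add_left hL1]
    apply lintegral_mono
    intro v
    show KK' (u, v) ≤ le1 (φ u) (φ v) * KK' (u, v) + le1 (φ v) (φ u) * KK' (u, v)
    rcases le_total (φ u) (φ v) with h | h
    · rw [le1_one h, one_mul]; exact le_self_add
    · rw [le1_one h, one_mul]; exact le_add_self
  have h2 : ∫⁻ u in D, ∫⁻ v in D, le1 (φ v) (φ u) * KK' (u, v) =
      ∫⁻ u in D, ∫⁻ v in D, le1 (φ u) (φ v) * KK' (u, v) := by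
    rw [lintegral_lintegral_swap hLm'.aemeasurable]
    refine lintegral_congr fun w => lintegral_congr fun v => ?_
    rw [hsymm]
  have h3 : ∫⁻ u in D, ∫⁻ v in D, le1 (φ u) (φ v) * KK' (u, v) ≤
      ENNReal.ofReal (C * r ^ d * lam⁻¹ ^ (d - 1) * ell r) * volume D := by
    calc ∫⁻ u in D, ∫⁻ v in D, le1 (φ u) (φ v) * KK' (u, v)
        ≤ ∫⁻ _u in D, ENNReal.ofReal (C * r ^ d * lam⁻¹ ^ (d - 1) * ell r) := by
          refine setLIntegral_mono' hD fun u hu => ?_
          refine le_trans ?_ (hrow lam (τ u - 1) hl hrl u hu)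
          refine lintegral_mono fun v => ?_
          show le1 (φ u) (φ v) * KK' (u, v) ≤ le1 (φ u) (φ v) *
            ∫⁻ s in Icc (τ u - 1) (τ u - 1 + 4), sI P (s - τ v) * oo lam (s - τ v) *
              ic r ((b v + s • v) - (b u + s • u))
          gcongr
          rw [hKK, ← lintegral_indicator measurableSet_Icc]
          apply lintegral_mono
          intro t
          show pr b τ r S t u v ≤ (Icc (τ u - 1) (τ u - 1 + 4)).indicator (fun s =>
            sI P (s - τ v) * oo lam (s - τ v) * ic r ((b v + s • v) - (b u + s • u))) t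
          unfold pr
          by_cases h4 : t - τ u ∈ S
          swap
          · have : sI S (t - τ u) = 0 := indicator_of_notMem h4 _
            rw [this, zero_mul, zero_mul]
            exact zero_le
          by_cases h5 : t - τ v ∈ S
          swap
          · have : sI S (t - τ v) = 0 := indicator_of_notMem h5 _
            rw [this, mul_zero, zero_mul]
            exact zero_le
          have h6 := abs_le.1 (hS1 _ h4).2
          have h7 : t ∈ Icc (τ u - 1) (τ u - 1 + 4) := by
            constructor <;> linarith [h6.1, h6.2]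
          rw [indicator_of_mem h7]
          have e1 : sI P (t - τ v) = 1 := indicator_of_mem (hSP h5) _
          rw [e1, oo_one (hS1 _ h5).1, one_mul]
          gcongr
          calc sI S (t - τ u) * sI S (t - τ v) ≤ 1 * 1 := by
                gcongr
                · exact sI_le _ _
                · exact sI_le _ _
            _ = 1 := one_mul 1
      _ = _ := by rw [lintegral_const, Measure.restrict_apply_univ]
  calc ∫⁻ u in D, ∫⁻ v in D, ∫⁻ t, pr b τ r S t u v
      = ∫⁻ u in D, ∫⁻ v in D, KK' (u, v) := rfl
    _ ≤ _ := h1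
    _ ≤ _ := by
        rw [h2, two_mul]
        exact add_le_add h3 h3

end Pool.Agent.W2helper94.CT
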