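import Pool.Agent.W2helper94.CT.A

set_option autoImplicit false

/-!
The critical moment of the sum of the tubes.
-/

open MeasureTheory Set Metric
open scoped ENNReal NNReal

namespace Pool.Agent.W2helper94.CT

open Pool.Agent.W2helper94.KC Pool.Agent.W2helper94.CV

variable {d : ℕ}

theorem shells_exist' {δ : ℝ} (hδ : 0 < δ) : ∃ I : ℕ, (1 / 2 : ℝ) ^ I ≤ δ ∧ (I : ℝ) + 1 ≤ 2 * ell δ ∧
    ∀ i < I, δ ≤ 4 * (1 / 2 : ℝ) ^ (i + 1) := by
  have hell := one_le_ell hδ
  rcases le_or_gt 1 δ with h | h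
  · refine ⟨0, by simpa using h, ?_, fun i hi => absurd hi (Nat.not_lt_zero i)⟩
    push_cast
    linarith
  · obtain ⟨n, hn1, hn2⟩ := exists_nat_pow_near_of_lt_one hδ h.le (by norm_num : (0:ℝ) < 1/2)
      (by norm_num)
    refine ⟨n + 1, hn1.le, ?_, ?_⟩
    · have h1 : (2 : ℝ) ^ n ≤ 1 / δ := by
        rw [le_div_iff₀ hδ]
        have h2 : (2 : ℝ) ^ n * (1 / 2) ^ n = 1 := by rw [← mul_pow]; norm_num
        calc (2 : ℝ) ^ n * δ ≤ 2 ^ n * (1 / 2) ^ n := by gcongr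
          _ = 1 := h2
      have h3 : Real.log ((2 : ℝ) ^ n) ≤ Real.log (1 + 1 / δ) :=
        Real.log_le_log (by positivity) (by linarith)
      rw [Real.log_pow] at h3
      have h4 := Real.log_two_gt_d9
      have hn0 : (0:ℝ) ≤ n := Nat.cast_nonneg n
      unfold ell
      push_cast
      nlinarith
    · intro i hi
      have h1 : (1 / 2 : ℝ) ^ (n + 1) ≤ (1 / 2 : ℝ) ^ (i + 1) :=
        pow_le_pow_of_le_one (by norm_num) (by norm_num) (by omega)
      have h2 : (1 / 2 : ℝ) ^ (n + 1) = (1 / 2) ^ n * (1 / 2) := pow_succ _ _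
      have h3 : (0 : ℝ) < (1 / 2) ^ n := by positivity
      linarith

theorem shell1 (hd : 1 ≤ d) {C : ℝ} (hC : 0 < C) : ∃ K : ℝ, 0 < K ∧ ∀ (P : Set ℝ) (D : Set (E d))
    (φ : E d → ℝ) (b : E d → E d) (τ : E d → ℝ) (δ lam : ℝ), MeasurableSet P → MeasurableSet D →
    volume D ≤ ENNReal.ofReal (omg d) → Row1 P D φ b τ (2 * δ) C → Measurable φ → Measurable b →
    Measurable τ → 0 < δ → 0 < lam → 2 * lam ≤ 1 → δ ≤ 4 * lam →
    ∫⁻ q, G1 D b τ δ (P ∩ shl lam) q ^ (1 + 1 / (d : ℝ)) ≤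
      ENNReal.ofReal (K * δ ^ (d + 1) * ell δ ^ (((1 : ℕ) : ℝ) / d)) := by
  have hω := omg_pos d
  have hd0 : (0 : ℝ) < d := by exact_mod_cast hd
  have hd1 : (1 : ℝ) ≤ d := by exact_mod_cast hd
  set a : ℝ := 4 * omg d ^ 2 with ha
  set b0 : ℝ := 2 * omg d ^ 2 * C * 2 ^ d with hb0
  have ha0 : 0 < a := by positivity
  have hb00 : 0 < b0 := by positivity
  refine ⟨(a ^ (d - 1) * b0) ^ (1 / (d : ℝ)), by positivity, ?_⟩
  intro P D φ b τ δ lam hP hD hDV hrow hφ hb hτ hδ hlam hlam2 hδl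
  have hL := one_le_ell hδ
  have hL0 : 0 < ell δ := by linarith
  have hSm : MeasurableSet (P ∩ shl lam) := hP.inter (measurableSet_shl lam)
  have hGm := measurable_G1 D hb hτ δ hSm
  have hint : ∫⁻ q, G1 D b τ δ (P ∩ shl lam) q ≤ ENNReal.ofReal (a * δ ^ d * lam) := by
    rw [G1_int D hb hτ δ hSm, omg_scale d hδ]
    calc volume D * (ENNReal.ofReal (δ ^ d * omg d) * volume (P ∩ shl lam))
        ≤ ENNReal.ofReal (omg d) * (ENNReal.ofReal (δ ^ d * omg d) * ENNReal.ofReal (4 * lam)) := by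
          gcongr
          exact (measure_mono inter_subset_right).trans vol_shl
      _ = _ := by
          rw [← ENNReal.ofReal_mul (by positivity), ← ENNReal.ofReal_mul hω.le]
          congr 1
          rw [ha]
          ring
  have hsq : ∫⁻ q, G1 D b τ δ (P ∩ shl lam) q ^ (2 : ℝ) ≤
      ENNReal.ofReal (b0 * δ ^ (2 * d) * lam⁻¹ ^ (d - 1) * ell δ ^ 1) := by
    refine (G1_sq hD hrow hφ hb hτ hlam (by linarith) hSm inter_subset_left
      (fun s hs => ⟨hs.2.1, hs.2.2.trans hlam2⟩)).trans ?_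
    rw [omg_scale d hδ]
    calc ENNReal.ofReal (δ ^ d * omg d) *
          (2 * (ENNReal.ofReal (C * (2 * δ) ^ d * lam⁻¹ ^ (d - 1) * ell (2 * δ)) * volume D))
        ≤ ENNReal.ofReal (δ ^ d * omg d) * (ENNReal.ofReal 2 *
          (ENNReal.ofReal (C * (2 * δ) ^ d * lam⁻¹ ^ (d - 1) * ell δ) * ENNReal.ofReal (omg d))) := by
          gcongr
          · simp
          · exact ell_anti hδ (by linarith : δ ≤ 2 * δ)
      _ = _ := by
          rw [← ENNReal.ofReal_mul (by positivity), ← ENNReal.ofReal_mul (by positivity),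
            ← ENNReal.ofReal_mul (by positivity)]
          congr 1
          rw [mul_pow, hb0, two_mul d, pow_add δ d d]
          ring
  have hq : (1 : ℝ) + 1 / d ≤ 2 := by
    have : 1 / (d : ℝ) ≤ 1 := by rw [div_le_one hd0]; exact hd1
    linarith
  have h := Pool.Agent.H810R3.Tub.interp (μ := volume) hGm (p := 1 + 1 / (d : ℝ)) (q := 2)
    (by norm_num) (by have : 0 < 1 / (d : ℝ) := by positivity
                      linarith) hq
  have e1 : (1 + 1 / (d : ℝ) - 1) / (2 - 1) = 1 / (d : ℝ) := by ring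
  rw [e1] at h
  have h0 : 0 ≤ 1 - 1 / (d : ℝ) := by
    have : 1 / (d : ℝ) ≤ 1 := by rw [div_le_one hd0]; exact hd1
    linarith
  refine h.trans ?_
  calc (∫⁻ q, G1 D b τ δ (P ∩ shl lam) q) ^ (1 - 1 / (d : ℝ)) *
        (∫⁻ q, G1 D b τ δ (P ∩ shl lam) q ^ (2 : ℝ)) ^ (1 / (d : ℝ))
      ≤ ENNReal.ofReal (a * δ ^ d * lam) ^ (1 - 1 / (d : ℝ)) *
        ENNReal.ofReal (b0 * δ ^ (2 * d) * lam⁻¹ ^ (d - 1) * ell δ ^ 1) ^ (1 / (d : ℝ)) := by
        gcongr
    _ = ENNReal.ofReal ((a * δ ^ d * lam) ^ (1 - 1 / (d : ℝ)) *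
        (b0 * δ ^ (2 * d) * lam⁻¹ ^ (d - 1) * ell δ ^ 1) ^ (1 / (d : ℝ))) := by
        rw [ENNReal.ofReal_rpow_of_nonneg (by positivity) h0,
          ENNReal.ofReal_rpow_of_nonneg (by positivity) (by positivity),
          ← ENNReal.ofReal_mul (by positivity)]
    _ = _ := by
        rw [real_shell hd hδ hL0 hlam ha0 hb00 rfl rfl rfl]

theorem end1 (hd : 1 ≤ d) {P : Set ℝ} {D : Set (E d)} {b : E d → E d} {τ : E d → ℝ}
    (hP : MeasurableSet P) (hDV : volume D ≤ ENNReal.ofReal (omg d)) (hb : Measurable b)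
    (hτ : Measurable τ) {δ μ : ℝ} (hδ : 0 < δ) (hμδ : μ ≤ δ) :
    ∫⁻ q, G1 D b τ δ (P ∩ Icc (-μ) μ) q ^ (1 + 1 / (d : ℝ)) ≤
      ENNReal.ofReal (2 * omg d ^ 2 * omg d ^ (1 / (d : ℝ)) * δ ^ (d + 1)) := by
  have hω := omg_pos d
  have hd0 : (0 : ℝ) < d := by exact_mod_cast hd
  have hp0 : 0 < 1 / (d : ℝ) := by positivity
  calc ∫⁻ q, G1 D b τ δ (P ∩ Icc (-μ) μ) q ^ (1 + 1 / (d : ℝ))
      ≤ ∫⁻ q, ENNReal.ofReal (omg d ^ (1 / (d : ℝ))) * G1 D b τ δ (P ∩ Icc (-μ) μ) q := by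
        apply lintegral_mono
        intro q
        show G1 D b τ δ (P ∩ Icc (-μ) μ) q ^ (1 + 1 / (d : ℝ)) ≤
          ENNReal.ofReal (omg d ^ (1 / (d : ℝ))) * G1 D b τ δ (P ∩ Icc (-μ) μ) q
        rw [ENNReal.rpow_add_of_nonneg _ _ zero_le_one hp0.le, ENNReal.rpow_one, mul_comm,
          ← ENNReal.ofReal_rpow_of_nonneg hω.le hp0.le]
        gcongr
        exact (G1_le D b τ δ _ q).trans hDV
    _ = ENNReal.ofReal (omg d ^ (1 / (d : ℝ))) * ∫⁻ q, G1 D b τ δ (P ∩ Icc (-μ) μ) q :=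
        lintegral_const_mul' _ _ ENNReal.ofReal_ne_top
    _ ≤ ENNReal.ofReal (omg d ^ (1 / (d : ℝ))) * (ENNReal.ofReal (omg d) *
          (ENNReal.ofReal (δ ^ d * omg d) * ENNReal.ofReal (2 * δ))) := by
        rw [G1_int D hb hτ δ (hP.inter measurableSet_Icc), omg_scale d hδ]
        gcongr
        refine (measure_mono inter_subset_right).trans ?_
        rw [Real.volume_Icc]
        apply ENNReal.ofReal_le_ofReal
        linarith
    _ = _ := by
        rw [← ENNReal.ofReal_mul (by positivity), ← ENNReal.ofReal_mul (by positivity),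
          ← ENNReal.ofReal_mul (by positivity)]
        congr 1
        rw [pow_succ]
        ring

theorem G1_cover (D : Set (E d)) {b : E d → E d} {τ : E d → ℝ} {δ : ℝ} {S : Set ℝ} {I : ℕ}
    {T : ℕ → Set ℝ} (hb : Measurable b) (hτ : Measurable τ) (hT : ∀ i, MeasurableSet (T i))
    (h : S ⊆ ⋃ i ∈ Finset.range I, T i) (q : E d × ℝ) :
    G1 D b τ δ S q ≤ ∑ i ∈ Finset.range I, G1 D b τ δ (T i) q := by
  unfold G1
  rw [← lintegral_finsetSum]
  · apply lintegral_mono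
    intro u
    show sI S (q.2 - τ u) * ic δ (q.1 - (b u + q.2 • u)) ≤
      ∑ i ∈ Finset.range I, sI (T i) (q.2 - τ u) * ic δ (q.1 - (b u + q.2 • u))
    rw [← Finset.sum_mul]
    gcongr
    by_cases hs : q.2 - τ u ∈ S
    · obtain ⟨i, hi, hi2⟩ := mem_iUnion₂.1 (h hs)
      have h1 : sI S (q.2 - τ u) = 1 := indicator_of_mem hs _
      have h2 : sI (T i) (q.2 - τ u) = 1 := indicator_of_mem hi2 _
      rw [h1, ← h2]
      exact Finset.single_le_sum (f := fun i => sI (T i) (q.2 - τ u)) (fun _ _ => zero_le) hi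
    · have : sI S (q.2 - τ u) = 0 := indicator_of_notMem hs _
      rw [this]
      exact zero_le
  · intro i _
    have hpm : Measurable (fun u : E d => (q, u)) := measurable_const.prodMk measurable_id
    have h := (meas_c hb hτ δ (hT i)).comp hpm
    simp only [Function.comp_def] at h
    exact h

/-- **The critical moment.** -/
theorem moment1 (hd : 1 ≤ d) {C : ℝ} (hC : 0 < C) : ∃ K : ℝ, 0 < K ∧ ∀ (P : Set ℝ) (D : Set (E d))
    (φ : E d → ℝ) (b : E d → E d) (τ : E d → ℝ) (δ : ℝ), MeasurableSet P → MeasurableSet D →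
    volume D ≤ ENNReal.ofReal (omg d) → Row1 P D φ b τ (2 * δ) C → Measurable φ → Measurable b →
    Measurable τ → 0 < δ →
    ∫⁻ q, G1 D b τ δ (P ∩ Icc (-1) 1) q ^ (1 + 1 / (d : ℝ)) ≤
      ENNReal.ofReal (K * δ ^ (d + 1) * ell δ ^ (((d : ℝ) + 2) / d)) := by
  obtain ⟨K1, hK1, hshell⟩ := shell1 hd hC
  have hω := omg_pos d
  have hd0 : (0 : ℝ) < d := by exact_mod_cast hd
  set K2 : ℝ := 2 * omg d ^ 2 * omg d ^ (1 / (d : ℝ)) with hK2
  have hK20 : 0 < K2 := by positivity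
  set p : ℝ := 1 + 1 / (d : ℝ) with hp'
  have hp1 : 1 ≤ p := by
    have : 0 < 1 / (d : ℝ) := by positivity
    linarith
  refine ⟨2 ^ p * (K1 + K2), by positivity, ?_⟩
  intro P D φ b τ δ hP hD hDV hrow hφ hb hτ hδ
  obtain ⟨I, hI1, hI2, hI3⟩ := shells_exist' hδ
  have hL := one_le_ell hδ
  have hL0 : 0 < ell δ := by linarith
  set T : ℕ → Set ℝ := fun i => if i = I then P ∩ Icc (-(1/2:ℝ)^I) ((1/2:ℝ)^I)
    else P ∩ shl ((1/2:ℝ)^(i+1)) with hT
  have hTm : ∀ i, MeasurableSet (T i) := by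
    intro i
    rw [hT]
    dsimp only
    split_ifs
    · exact hP.inter measurableSet_Icc
    · exact hP.inter (measurableSet_shl _)
  have hcov : P ∩ Icc (-1 : ℝ) 1 ⊆ ⋃ i ∈ Finset.range (I + 1), T i := by
    intro s hs
    have hs1 : |s| ≤ 1 := abs_le.2 hs.2
    rw [mem_iUnion₂]
    rcases le_or_gt |s| ((1/2:ℝ)^I) with h | h
    · refine ⟨I, by simp, ?_⟩
      rw [hT]
      simp only [if_true]
      exact ⟨hs.1, abs_le.1 h⟩
    · have hs0 : 0 < |s| := lt_trans (by positivity) h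
      obtain ⟨n, hn1, hn2⟩ := exists_nat_pow_near_of_lt_one hs0 hs1 (by norm_num : (0:ℝ) < 1/2)
        (by norm_num)
      have hnI : n < I := by
        by_contra hcon
        push Not at hcon
        have : (1/2:ℝ)^n ≤ (1/2:ℝ)^I := pow_le_pow_of_le_one (by norm_num) (by norm_num) hcon
        linarith
      refine ⟨n, by simp; omega, ?_⟩
      rw [hT]
      simp only [hnI.ne, if_false]
      refine ⟨hs.1, hn1.le, hn2.trans (le_of_eq ?_)⟩
      rw [pow_succ]
      ring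
  have hone : ∀ i ∈ Finset.range (I + 1), ∫⁻ q, G1 D b τ δ (T i) q ^ p ≤
      ENNReal.ofReal ((K1 + K2) * δ ^ (d + 1) * ell δ ^ (((1 : ℕ) : ℝ) / d)) := by
    intro i hi
    have hLp : 1 ≤ ell δ ^ (((1 : ℕ) : ℝ) / d) := Real.one_le_rpow hL (by positivity)
    by_cases h : i = I
    · have : T i = P ∩ Icc (-(1/2:ℝ)^I) ((1/2:ℝ)^I) := by rw [hT]; simp [h]
      rw [this]
      refine (end1 hd hP hDV hb hτ hδ hI1).trans (ENNReal.ofReal_le_ofReal ?_)
      rw [← hK2]
      have h1 : 0 < δ ^ (d + 1) := by positivity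
      calc K2 * δ ^ (d + 1) = K2 * δ ^ (d + 1) * 1 := by ring
        _ ≤ (K1 + K2) * δ ^ (d + 1) * ell δ ^ (((1 : ℕ) : ℝ) / d) := by
            gcongr
            linarith
    · have : T i = P ∩ shl ((1/2:ℝ)^(i+1)) := by rw [hT]; simp [h]
      rw [this]
      have hiI : i < I := by
        have := Finset.mem_range.1 hi
        omega
      refine (hshell P D φ b τ δ _ hP hD hDV hrow hφ hb hτ hδ (by positivity) ?_ (hI3 i hiI)).trans
        (ENNReal.ofReal_le_ofReal ?_)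
      · rw [pow_succ]
        have : (1/2:ℝ)^i ≤ 1 := pow_le_one₀ (by norm_num) (by norm_num)
        linarith
      · gcongr
        linarith
  have hGm : ∀ i, Measurable (G1 D b τ δ (T i)) := fun i => measurable_G1 D hb hτ δ (hTm i)
  calc ∫⁻ q, G1 D b τ δ (P ∩ Icc (-1) 1) q ^ p
      ≤ ∫⁻ q, ((Finset.range (I + 1)).card : ℝ≥0∞) ^ (p - 1) *
        ∑ i ∈ Finset.range (I + 1), G1 D b τ δ (T i) q ^ p := by
        apply lintegral_mono
        intro q
        exact le_trans (ENNReal.rpow_le_rpow (G1_cover D hb hτ hTm hcov q) (by linarith))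
          (ENNReal.rpow_sum_le_const_mul_sum_rpow _ _ hp1)
    _ = ((Finset.range (I + 1)).card : ℝ≥0∞) ^ (p - 1) *
        ∑ i ∈ Finset.range (I + 1), ∫⁻ q, G1 D b τ δ (T i) q ^ p := by
        rw [lintegral_const_mul _ (Finset.measurable_sum _ (fun i _ => (hGm i).pow_const _)),
          lintegral_finsetSum _ (fun i _ => (hGm i).pow_const _)]
    _ ≤ ((Finset.range (I + 1)).card : ℝ≥0∞) ^ (p - 1) *
        ∑ i ∈ Finset.range (I + 1),
          ENNReal.ofReal ((K1 + K2) * δ ^ (d + 1) * ell δ ^ (((1 : ℕ) : ℝ) / d)) := by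
        gcongr with i hi
        exact hone i hi
    _ = ENNReal.ofReal (((I : ℝ) + 1) ^ p *
        ((K1 + K2) * δ ^ (d + 1) * ell δ ^ (((1 : ℕ) : ℝ) / d))) := by
        rw [Finset.sum_const, Finset.card_range, nsmul_eq_mul, ← mul_assoc]
        have e1 : ((I + 1 : ℕ) : ℝ≥0∞) = ENNReal.ofReal ((I : ℝ) + 1) := by
          rw [← ENNReal.ofReal_natCast]
          push_cast
          rfl
        rw [e1, ENNReal.ofReal_mul (by positivity : (0:ℝ) ≤ ((I : ℝ) + 1) ^ p)]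
        congr 1
        rw [← ENNReal.ofReal_rpow_of_nonneg (by positivity : (0:ℝ) ≤ (I : ℝ) + 1)
          (by linarith : (0:ℝ) ≤ p)]
        conv_lhs => rw [← ENNReal.rpow_one (ENNReal.ofReal ((I : ℝ) + 1)), ← ENNReal.rpow_mul]
        rw [← ENNReal.rpow_add_of_nonneg _ _ (by linarith) zero_le_one]
        congr 1
        ring
    _ ≤ _ := by
        apply ENNReal.ofReal_le_ofReal
        have h1 : ((I : ℝ) + 1) ^ p ≤ 2 ^ p * ell δ ^ p := by
          rw [← Real.mul_rpow (by norm_num) hL0.le]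
          exact Real.rpow_le_rpow (by positivity) hI2 (by linarith)
        calc ((I : ℝ) + 1) ^ p * ((K1 + K2) * δ ^ (d + 1) * ell δ ^ (((1 : ℕ) : ℝ) / d))
            ≤ (2 ^ p * ell δ ^ p) *
              ((K1 + K2) * δ ^ (d + 1) * ell δ ^ (((1 : ℕ) : ℝ) / d)) := by gcongr
          _ = 2 ^ p * (K1 + K2) * δ ^ (d + 1) *
              (ell δ ^ p * ell δ ^ (((1 : ℕ) : ℝ) / d)) := by ring
          _ = _ := by
              rw [← Real.rpow_add hL0]
              congr 2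
              rw [hp']
              push_cast
              field_simp
              ring

end Pool.Agent.W2helper94.CT
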