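import Pool.Agent.W2helper94.CT.C

set_option autoImplicit false

/-!
From the continuous family to boxes: general sets of directions.
-/

open MeasureTheory Set Metric
open scoped ENNReal NNReal

namespace Pool.Agent.W2helper94.CT

open Pool.Agent.W2helper94.KC Pool.Agent.W2helper94.CV
open Pool.Agent.H810R3

variable {d : ℕ}

/-- The boxes are bounded by the continuous family. The box number `i` meets the ball around `Z i`;
the lines of the continuous family with a direction near `ω i / 2` pass through the point which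
corresponds to `Z i`. -/
theorem point_bound2 {ι : Type} [Fintype ι] {N K sep c : ℝ} (hN : 1 ≤ N) (hK : 0 ≤ K)
    (hsep1 : sep ≤ 1) (hc0 : 0 < c) (hc8 : c ≤ sep / 8) (ω : ι → E d)
    (hω : ∀ i, ‖ω i‖ ≤ 1) (hsp : ∀ i j, i ≠ j → sep / N ≤ ‖ω i - ω j‖)
    (f : ι → Fin d → Tub.Space d)
    (hf : ∀ i, Orthonormal ℝ (Fin.cons (Tub.nor (ω i)) (f i) : Fin (d + 1) → Tub.Space d))
    (a : ι → Tub.Space d) (Z : ι → Tub.Space d)
    (hz : ∀ i, (Tub.box N (Tub.nor (ω i)) (f i) (a i) ∩ closedBall (Z i) (K * N)).Nonempty)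
    (w : ι → E d) (hw1 : ∀ i, ‖w i - ω i‖ ≤ sep / (8 * N)) (P : Set ℝ)
    (hP : ∀ i, ∀ y ∈ Tub.box N (Tub.nor (ω i)) (f i) (a i),
      -4 / scal d K N * (y.snd - (Z i).snd) ∈ P)
    (b : E d → E d) (τ : E d → ℝ)
    (hbτ : ∀ i, ∀ u ∈ closedBall ((1 / 2 : ℝ) • w i) (c / (4 * N)),
      b u + τ u • u = (scal d K N)⁻¹ • (Z i).fst ∧ τ u = -4 / scal d K N * (Z i).snd)
    {A : Set (E d)} (hA : MeasurableSet A)
    (hAi : ∀ i, closedBall ((1 / 2 : ℝ) • w i) (c / (4 * N)) ⊆ A) (y : E d) (t : ℝ) :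
    Tub.Fb N ω f a (WithLp.toLp 2 (y, t)) * volume (closedBall (0 : E d) (c / (4 * N))) ≤
      G1 A b τ (2 / N) (P ∩ Icc (-1) 1)
        ((scal d K N)⁻¹ • y, -4 / scal d K N * t) := by
  have hN0 : 0 < N := by linarith
  have hd0 : (0 : ℝ) ≤ d := Nat.cast_nonneg d
  have hsep : 0 < sep := by linarith
  set M : ℝ := scal d K N with hM
  have hM0 : 0 < M := by rw [hM, scal]; positivity
  set D : ι → Set (E d) := fun i => closedBall ((1 / 2 : ℝ) • w i) (c / (4 * N)) with hD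
  have hdis : Pairwise (Function.onFun Disjoint D) := by
    intro i j hij
    apply closedBall_disjoint_closedBall
    rw [dist_eq_norm, ← smul_sub, norm_smul, Real.norm_eq_abs, abs_of_pos (by norm_num : (0:ℝ) < 1/2)]
    have h1 := hsp i j hij
    have h2 : ‖ω i - ω j‖ ≤ ‖w i - w j‖ + (‖w i - ω i‖ + ‖w j - ω j‖) := by
      have e1 : ω i - ω j = (w i - w j) - ((w i - ω i) - (w j - ω j)) := by abel
      rw [e1]
      exact (norm_sub_le _ _).trans (add_le_add le_rfl (norm_sub_le _ _))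
    have h3 := hw1 i
    have h4 := hw1 j
    have h5 : sep / (8 * N) = (sep / N) / 8 := by field_simp
    have h6 : c / (4 * N) ≤ (sep / N) / 32 := by
      calc c / (4 * N) ≤ (sep / 8) / (4 * N) := by gcongr
        _ = _ := by field_simp; ring
    have h8 : 0 < sep / N := by positivity
    rw [h5] at h3 h4
    linarith
  have hvol : ∀ i, volume (D i) = volume (closedBall (0 : E d) (c / (4 * N))) := by
    intro i
    exact Measure.addHaar_closedBall_center _ _ _
  set F : E d → ℝ≥0∞ := fun u => sI (P ∩ Icc (-1) 1) (-4 / M * t - τ u) *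
    ic (2 / N) (M⁻¹ • y - (b u + (-4 / M * t) • u)) with hF
  have hGG : G1 A b τ (2 / N) (P ∩ Icc (-1) 1) (M⁻¹ • y, -4 / M * t) =
      ∫⁻ u in A, F u := rfl
  rw [hGG]
  have hone : ∀ i, (WithLp.toLp 2 (y, t) : Tub.Space d) ∈ Tub.box N (Tub.nor (ω i)) (f i) (a i) →
      ∀ u ∈ D i, u ∈ A ∧ F u = 1 := by
    intro i hy u hu
    have huA : u ∈ A := hAi i hu
    obtain ⟨hb1, hb2⟩ := hbτ i u hu
    rw [hD, mem_closedBall, dist_eq_norm] at hu
    obtain ⟨h1, h2⟩ := box_vertex hN hK (hω i) (hf i) hy (hz i)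
    have hP1 := hP i _ hy
    have e1 : ((WithLp.toLp 2 (y, t) : Tub.Space d) - Z i).fst = y - (Z i).fst := rfl
    have e2 : ((WithLp.toLp 2 (y, t) : Tub.Space d) - Z i).snd = t - (Z i).snd := rfl
    have e2' : (WithLp.toLp 2 (y, t) : Tub.Space d).snd - (Z i).snd = t - (Z i).snd := rfl
    rw [e1, e2] at h1
    rw [e2] at h2
    rw [e2'] at hP1
    set s : ℝ := -4 / M * (t - (Z i).snd) with hs
    have hτ1 : |s| ≤ 1 := by
      have e5 : s = -(4 / M) * (t - (Z i).snd) := by rw [hs]; ring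
      rw [e5, abs_mul, abs_neg, abs_of_pos (by positivity : 0 < 4 / M), div_mul_eq_mul_div,
        div_le_one hM0]
      calc 4 * |t - (Z i).snd| ≤ 4 * ((1 + d + K) * N ^ 2) := by gcongr
        _ = M := by rw [hM, scal]; ring
    have hsep8 : sep / (8 * N) ≤ 1 / N / 8 := by
      calc sep / (8 * N) ≤ 1 / (8 * N) := by gcongr
        _ = _ := by field_simp
    have hc32 : c / (4 * N) ≤ 1 / N / 32 := by
      calc c / (4 * N) ≤ (1 / 8) / (4 * N) := by gcongr; linarith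
        _ = _ := by field_simp; ring
    have h8 : 0 < 1 / N := by positivity
    have hu2 : ‖u - (1 / 2 : ℝ) • ω i‖ ≤ 1 / N := by
      have e5 : u - (1 / 2 : ℝ) • ω i = (u - (1 / 2 : ℝ) • w i) + (1 / 2 : ℝ) • (w i - ω i) := by
        rw [smul_sub]; abel
      rw [e5]
      refine (norm_add_le _ _).trans ?_
      rw [norm_smul, Real.norm_eq_abs, abs_of_pos (by norm_num : (0:ℝ) < 1/2)]
      have h5 := hw1 i
      linarith
    refine ⟨huA, ?_⟩
    have e3 : -4 / M * t - τ u = s := by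
      rw [hb2, hs]
      ring
    have hpos : ‖M⁻¹ • y - (b u + (-4 / M * t) • u)‖ ≤ 2 / N := by
      have e4 : b u + (-4 / M * t) • u = M⁻¹ • (Z i).fst + s • u := by
        rw [← hb1, ← e3, sub_smul]
        abel
      rw [e4]
      have e5 : M⁻¹ • y - (M⁻¹ • (Z i).fst + s • u) =
          M⁻¹ • (y - (Z i).fst + (2 * (t - (Z i).snd)) • ω i) - s • (u - (1 / 2 : ℝ) • ω i) := by
        have e6 : s = -(4 * M⁻¹) * (t - (Z i).snd) := by
          rw [hs]; ring
        rw [e6]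
        module
      rw [e5]
      refine (norm_sub_le _ _).trans ?_
      rw [norm_smul, norm_smul, Real.norm_eq_abs, Real.norm_eq_abs, abs_of_pos (inv_pos.2 hM0)]
      have h5 : M⁻¹ * ‖y - (Z i).fst + (2 * (t - (Z i).snd)) • ω i‖ ≤ 1 / N := by
        calc M⁻¹ * ‖y - (Z i).fst + (2 * (t - (Z i).snd)) • ω i‖
            ≤ M⁻¹ * ((4 * d + 3 * K) * N) := by gcongr
          _ ≤ M⁻¹ * (M / N) := by
              gcongr
              rw [hM, scal, le_div_iff₀ hN0]
              nlinarith [sq_nonneg N, mul_nonneg hK (sq_nonneg N)]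
          _ = 1 / N := by field_simp
      have h6 : |s| * ‖u - (1 / 2 : ℝ) • ω i‖ ≤ 1 * (1 / N) := by gcongr
      have h7 : 2 / N = 1 / N + 1 / N := by ring
      linarith
    rw [hF]
    simp only
    rw [ic_of_le hpos, e3]
    have h5 : sI (P ∩ Icc (-1) 1) s = 1 :=
      indicator_of_mem (show s ∈ P ∩ Icc (-1) 1 from ⟨hP1, mem_Icc.2 (abs_le.1 hτ1)⟩) _
    rw [h5, one_mul]
  calc Tub.Fb N ω f a (WithLp.toLp 2 (y, t)) * volume (closedBall (0 : E d) (c / (4 * N)))
      = ∑ i, (Tub.box N (Tub.nor (ω i)) (f i) (a i)).indicator (fun _ => (1 : ℝ≥0∞))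
          (WithLp.toLp 2 (y, t)) * volume (D i) := by
        unfold Tub.Fb
        rw [Finset.sum_mul]
        exact Finset.sum_congr rfl fun i _ => by rw [hvol]
    _ ≤ ∑ i, ∫⁻ u in D i, A.indicator F u := by
        apply Finset.sum_le_sum
        intro i _
        by_cases hy : (WithLp.toLp 2 (y, t) : Tub.Space d) ∈ Tub.box N (Tub.nor (ω i)) (f i) (a i)
        · rw [indicator_of_mem hy, one_mul,
            setLIntegral_congr_fun (g := fun _ => 1) measurableSet_closedBall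
              (fun u hu => by
                rw [indicator_of_mem (hone i hy u hu).1, (hone i hy u hu).2]), setLIntegral_one]
        · rw [indicator_of_notMem hy, zero_mul]
          exact zero_le
    _ = ∫⁻ u in ⋃ i, D i, A.indicator F u := by
        rw [lintegral_iUnion (fun i => measurableSet_closedBall) hdis, tsum_fintype]
    _ ≤ ∫⁻ u, A.indicator F u := setLIntegral_le_lintegral _ _
    _ = ∫⁻ u in A, F u := lintegral_indicator hA _

/-- The critical moment of the sum of the boxes. -/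
theorem box_moment2 (hd : 1 ≤ d) {K sep c C0 : ℝ} (hK : 0 ≤ K) (hsep1 : sep ≤ 1) (hc0 : 0 < c)
    (hc8 : c ≤ sep / 8) (hC0 : 0 < C0) :
    ∃ C : ℝ, 0 < C ∧ ∀ N : ℝ, 1 ≤ N → ∀ (ι : Type) [Fintype ι] (ω : ι → E d)
      (f : ι → Fin d → Tub.Space d) (a : ι → Tub.Space d) (Z : ι → Tub.Space d) (w : ι → E d)
      (P : Set ℝ) (A : Set (E d)) (φ : E d → ℝ) (b : E d → E d) (τ : E d → ℝ),
      (∀ i, ‖ω i‖ ≤ 1) → (∀ i j, i ≠ j → sep / N ≤ ‖ω i - ω j‖) →
      (∀ i, Orthonormal ℝ (Fin.cons (Tub.nor (ω i)) (f i) : Fin (d + 1) → Tub.Space d)) →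
      (∀ i, (Tub.box N (Tub.nor (ω i)) (f i) (a i) ∩ closedBall (Z i) (K * N)).Nonempty) →
      (∀ i, ‖w i - ω i‖ ≤ sep / (8 * N)) → MeasurableSet P →
      (∀ i, ∀ y ∈ Tub.box N (Tub.nor (ω i)) (f i) (a i),
        -4 / scal d K N * (y.snd - (Z i).snd) ∈ P) →
      (∀ i, ∀ u ∈ closedBall ((1 / 2 : ℝ) • w i) (c / (4 * N)),
        b u + τ u • u = (scal d K N)⁻¹ • (Z i).fst ∧ τ u = -4 / scal d K N * (Z i).snd) →
      Measurable φ → Measurable b → Measurable τ → MeasurableSet A → A ⊆ closedBall 0 1 →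
      (∀ i, closedBall ((1 / 2 : ℝ) • w i) (c / (4 * N)) ⊆ A) →
      Row1 P A φ b τ (2 * (2 / N)) C0 →
      ∫⁻ y, Tub.Fb N ω f a y ^ (1 + 1 / (d : ℝ)) ≤
        ENNReal.ofReal (C * N ^ (2 * (d + 1)) * ((1 + Real.log N) ^ (d + 2)) ^ (1 / (d : ℝ))) := by
  obtain ⟨C1, hC1, hmom⟩ := moment1 hd hC0
  have hd0 : (0 : ℝ) < d := by exact_mod_cast hd
  have hω0 := omg_pos d
  set q : ℝ := 1 + 1 / (d : ℝ) with hq
  have hq0 : 0 ≤ q := by positivity
  set θ : ℝ := ((d : ℝ) + 2) / d with hθ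
  set v0 : ℝ := (c / 4) ^ d * omg d with hv0
  have hv00 : 0 < v0 := by positivity
  refine ⟨(v0⁻¹) ^ q * ((4 * (1 + d + K)) ^ (d + 1) / 4 * (C1 * 2 ^ (d + 1) * 2 ^ θ)), by positivity, ?_⟩
  intro N hN ι _ ω f a Z w P A φ b τ hω hsp hf hz hw hPm hP hbτ hφm hbm hτm hA hA1 hAi hrow
  have hN0 : 0 < N := by linarith
  have hlN : 0 ≤ Real.log N := Real.log_nonneg hN
  set M : ℝ := scal d K N with hM
  have hM0 : 0 < M := by rw [hM, scal]; positivity
  have hSm : MeasurableSet (P ∩ Icc (-1 : ℝ) 1) := hPm.inter measurableSet_Icc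
  have hGm := measurable_G1 A hbm hτm (2 / N) hSm
  set G : E d × ℝ → ℝ≥0∞ := G1 A b τ (2 / N) (P ∩ Icc (-1) 1) with hG
  have hV : volume (closedBall (0 : E d) (c / (4 * N))) = ENNReal.ofReal (v0 * (N ^ d)⁻¹) := by
    rw [omg_scale d (by positivity)]
    congr 1
    rw [hv0, ← div_div, div_pow]
    ring
  have hpt : ∀ y : E d × ℝ, Tub.Fb N ω f a (WithLp.toLp 2 y) ^ q ≤
      ENNReal.ofReal ((v0⁻¹ * N ^ d) ^ q) * G (M⁻¹ • y.1, -4 / M * y.2) ^ q := by
    intro y
    have h := point_bound2 hN hK hsep1 hc0 hc8 ω hω hsp f hf a Z hz w hw P hP b τ hbτ hA hAi y.1 y.2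
    rw [hV, ← hM, ← hG] at h
    have h1 : Tub.Fb N ω f a (WithLp.toLp 2 y) ≤
        ENNReal.ofReal (v0⁻¹ * N ^ d) * G (M⁻¹ • y.1, -4 / M * y.2) := by
      have h2 : ENNReal.ofReal (v0⁻¹ * N ^ d) * ENNReal.ofReal (v0 * (N ^ d)⁻¹) = 1 := by
        rw [← ENNReal.ofReal_mul (by positivity), ← ENNReal.ofReal_one]
        congr 1
        field_simp
      calc Tub.Fb N ω f a (WithLp.toLp 2 y)
          = ENNReal.ofReal (v0⁻¹ * N ^ d) * (Tub.Fb N ω f a (WithLp.toLp 2 y) *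
            ENNReal.ofReal (v0 * (N ^ d)⁻¹)) := by
            rw [mul_left_comm, h2, mul_one]
        _ ≤ _ := by gcongr
    calc Tub.Fb N ω f a (WithLp.toLp 2 y) ^ q ≤
          (ENNReal.ofReal (v0⁻¹ * N ^ d) * G (M⁻¹ • y.1, -4 / M * y.2)) ^ q := by gcongr
      _ = _ := by
          rw [ENNReal.mul_rpow_of_nonneg _ _ hq0, ENNReal.ofReal_rpow_of_nonneg (by positivity) hq0]
  have hmp := WithLp.volume_preserving_toLp (E d) ℝ
  have hFm : Measurable (fun y => Tub.Fb N ω f a y ^ q) := (Tub.Fb_measurable N ω f a).pow_const _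
  calc ∫⁻ y, Tub.Fb N ω f a y ^ q
      = ∫⁻ y : E d × ℝ, Tub.Fb N ω f a (WithLp.toLp 2 y) ^ q :=
        (hmp.lintegral_comp hFm).symm
    _ ≤ ∫⁻ y : E d × ℝ, ENNReal.ofReal ((v0⁻¹ * N ^ d) ^ q) *
          G (M⁻¹ • y.1, -4 / M * y.2) ^ q := lintegral_mono hpt
    _ = ENNReal.ofReal ((v0⁻¹ * N ^ d) ^ q) *
          ∫⁻ y : E d × ℝ, G (M⁻¹ • y.1, -4 / M * y.2) ^ q :=
        lintegral_const_mul' _ _ ENNReal.ofReal_ne_top
    _ = ENNReal.ofReal ((v0⁻¹ * N ^ d) ^ q) * (ENNReal.ofReal |((-4 / M) ^ 1)⁻¹| *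
          (ENNReal.ofReal |((M⁻¹) ^ d)⁻¹| * ∫⁻ y, G y ^ q)) := by
        rw [lint_scale (g := fun y => G y ^ q) (hGm.pow_const _) (inv_ne_zero hM0.ne')
          (div_ne_zero (by norm_num) hM0.ne')]
    _ ≤ ENNReal.ofReal ((v0⁻¹ * N ^ d) ^ q) * (ENNReal.ofReal |((-4 / M) ^ 1)⁻¹| *
          (ENNReal.ofReal |((M⁻¹) ^ d)⁻¹| *
          ENNReal.ofReal (C1 * (2 / N) ^ (d + 1) * ell (2 / N) ^ θ))) := by
        gcongr
        exact hmom P A φ b τ (2 / N) hPm hA
          ((measure_mono hA1).trans (le_of_eq (omg_eq d))) hrow hφm hbm hτm (by positivity)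
    _ = ENNReal.ofReal ((v0⁻¹ * N ^ d) ^ q * (|((-4 / M) ^ 1)⁻¹| *
          (|((M⁻¹) ^ d)⁻¹| * (C1 * (2 / N) ^ (d + 1) * ell (2 / N) ^ θ)))) := by
        rw [← ENNReal.ofReal_mul (abs_nonneg _), ← ENNReal.ofReal_mul (abs_nonneg _),
          ← ENNReal.ofReal_mul (by positivity)]
    _ ≤ _ := by
        apply ENNReal.ofReal_le_ofReal
        have hell := one_le_ell (by positivity : 0 < 2 / N)
        have h1 : |((-4 / M) ^ 1)⁻¹| = M / 4 := by
          rw [pow_one, inv_div, abs_div, abs_of_pos hM0]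
          norm_num
        have h2 : |((M⁻¹) ^ d)⁻¹| = M ^ d := by
          rw [inv_pow, inv_inv, abs_of_pos (by positivity)]
        have h3 : (v0⁻¹ * N ^ d) ^ q = v0⁻¹ ^ q * N ^ (d + 1) := by
          rw [Real.mul_rpow (by positivity) (by positivity)]
          congr 1
          rw [← Real.rpow_natCast, ← Real.rpow_mul hN0.le, ← Real.rpow_natCast N (d + 1)]
          congr 1
          rw [hq]
          push_cast
          field_simp
        have h4 : ell (2 / N) ^ θ ≤ 2 ^ θ * (1 + Real.log N) ^ θ := by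
          rw [← Real.mul_rpow (by norm_num) (by linarith)]
          exact Real.rpow_le_rpow (by linarith) (ell_N hN) (by positivity)
        have h5 : ((1 + Real.log N) ^ (d + 2)) ^ (1 / (d : ℝ)) = (1 + Real.log N) ^ θ := by
          rw [← Real.rpow_natCast, ← Real.rpow_mul (by linarith)]
          congr 1
          rw [hθ]
          push_cast
          ring
        rw [h1, h2, h3, h5]
        calc v0⁻¹ ^ q * N ^ (d + 1) * (M / 4 * (M ^ d * (C1 * (2 / N) ^ (d + 1) * ell (2 / N) ^ θ)))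
            ≤ v0⁻¹ ^ q * N ^ (d + 1) * (M / 4 * (M ^ d * (C1 * (2 / N) ^ (d + 1) *
              (2 ^ θ * (1 + Real.log N) ^ θ)))) := by gcongr
          _ = _ := by
              have hM1 : M = (4 * (1 + d + K)) * N ^ 2 := by rw [hM, scal]
              have hMd : M ^ d = (4 * (1 + d + K)) ^ d * N ^ (2 * d) := by
                rw [hM1, mul_pow, ← pow_mul]
              rw [hMd, hM1, div_pow 2 N]
              generalize 4 * (1 + d + K) = L0
              field_simp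
              ring

end Pool.Agent.W2helper94.CT
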