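import Pool.Agent.W2helper94.CT.C

set_option autoImplicit false

/-!
Convex labels: the families of boxes that meet over the level shells of a convex function.
-/

open MeasureTheory Set Metric
open scoped ENNReal NNReal

namespace Pool.Agent.W2helper94.CT

open Pool.Agent.W2helper94.KC Pool.Agent.W2helper94.CV
open Pool.Agent.H810R3

variable {d : ℕ}

theorem cont_ray {φ : E d → ℝ} {v₀ : E d} {κ : ℝ} (h : Sharp φ v₀ κ) (θ : E d) :
    Continuous (fun t : ℝ => φ (v₀ + t • θ)) :=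
  h.cont.comp (continuous_const.add (continuous_id.smul continuous_const))

/-- A point near `ω` at which the label is well inside the cell. -/
theorem good_pt (hd : 1 ≤ d) {φ : E d → ℝ} {v₀ : E d} {κ : ℝ} (h : Sharp φ v₀ κ) {N η : ℝ}
    (hN : 0 < N) (hη : 0 < η) (hη2 : η ≤ 1 / 2) (ω : E d) :
    ∃ w : E d, ‖w - ω‖ ≤ η / (κ * N) ∧
      (⌊N * (φ ω - φ v₀)⌋ : ℝ) + η ≤ N * (φ w - φ v₀) ∧
      N * (φ w - φ v₀) ≤ (⌊N * (φ ω - φ v₀)⌋ : ℝ) + 1 - η := by
  have hκ := h.pos
  obtain ⟨θ, hθ, hωθ⟩ := unit_dir hd (ω - v₀)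
  set t0 : ℝ := ‖ω - v₀‖ with ht0
  have ht00 : 0 ≤ t0 := norm_nonneg _
  have hω : ω = v₀ + t0 • θ := by rw [← hωθ]; abel
  set g : ℝ → ℝ := fun t => N * (φ (v₀ + t • θ) - φ v₀) with hg
  have hgc : Continuous g := ((cont_ray h θ).sub continuous_const).const_mul N
  have hg0 : g 0 = 0 := by rw [hg]; simp
  have hexp : ∀ s t : ℝ, 0 ≤ s → s ≤ t → κ * N * (t - s) ≤ g t - g s := by
    intro s t hs hst
    have h1 := ray_expand h hθ s t hst
    have h2 : ∀ t : ℝ, 0 ≤ t → ray φ v₀ κ θ t = φ (v₀ + t • θ) := by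
      intro t ht
      unfold ray
      rcases ht.eq_or_lt with h3 | h3
      · rw [← h3]; simp
      · rw [if_neg (not_le.2 h3)]
    rw [h2 s hs, h2 t (hs.trans hst)] at h1
    rw [hg]
    dsimp only
    nlinarith
  set n : ℤ := ⌊N * (φ ω - φ v₀)⌋ with hn
  have hgt0 : g t0 = N * (φ ω - φ v₀) := by rw [hg]; simp only [← hω]
  have hn1 : (n : ℝ) ≤ g t0 := by rw [hgt0]; exact Int.floor_le _
  have hn2 : g t0 < n + 1 := by rw [hgt0]; exact Int.lt_floor_add_one _
  have hn0 : (0 : ℝ) ≤ n := by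
    have h1 : 0 ≤ g t0 := by
      have := hexp 0 t0 le_rfl ht00
      rw [hg0] at this
      have h2 : 0 ≤ κ * N * (t0 - 0) := by
        rw [sub_zero]
        positivity
      linarith
    have : 0 ≤ n := by
      rw [hn, ← hgt0]
      exact Int.floor_nonneg.2 h1
    exact_mod_cast this
  have hη1 : η ≤ 1 - η := by linarith
  have hkN : 0 < κ * N := by positivity
  -- the parameter
  have key : ∃ t : ℝ, |t - t0| ≤ η / (κ * N) ∧ n + η ≤ g t ∧ g t ≤ n + 1 - η := by
    rcases lt_or_ge (g t0) (n + η) with h3 | h3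
    · have h4 := hexp t0 (t0 + η / (κ * N)) ht00 (by linarith [div_pos hη hkN])
      rw [add_sub_cancel_left, mul_div_cancel₀ _ hkN.ne'] at h4
      have h5 : (n : ℝ) + η ∈ Icc (g t0) (g (t0 + η / (κ * N))) := ⟨h3.le, by linarith⟩
      obtain ⟨t, ht, hte⟩ := intermediate_value_Icc (by linarith [div_pos hη hkN]) hgc.continuousOn h5
      refine ⟨t, ?_, ?_, ?_⟩
      · rw [abs_of_nonneg (by linarith [ht.1])]
        linarith [ht.2]
      · rw [hte]
      · rw [hte]; linarith
    · rcases le_or_gt (g t0) (n + 1 - η) with h4 | h4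
      · refine ⟨t0, ?_, h3, h4⟩
        rw [sub_self, abs_zero]
        positivity
      · have h5 : (n : ℝ) + 1 - η ∈ Icc (g 0) (g t0) := by
          rw [hg0]
          exact ⟨by linarith, h4.le⟩
        obtain ⟨t, ht, hte⟩ := intermediate_value_Icc ht00 hgc.continuousOn h5
        refine ⟨t, ?_, ?_, ?_⟩
        · have h6 := hexp t t0 ht.1 ht.2
          rw [hte] at h6
          rw [abs_sub_comm, abs_of_nonneg (by linarith [ht.2]), le_div_iff₀ hkN]
          nlinarith
        · rw [hte]; linarith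
        · rw [hte]
  obtain ⟨t, ht1, ht2, ht3⟩ := key
  refine ⟨v₀ + t • θ, ?_, ht2, ht3⟩
  rw [hω]
  have e : v₀ + t • θ - (v₀ + t0 • θ) = (t - t0) • θ := by module
  rw [e, norm_smul, hθ, mul_one]
  exact ht1

/-- Double the argument. -/
theorem sharp_two {φ : E d → ℝ} {v₀ : E d} {κ : ℝ} (h : Sharp φ v₀ κ) :
    Sharp (fun u => φ ((2 : ℝ) • u)) ((1 / 2 : ℝ) • v₀) (2 * κ) := by
  have hκ := h.pos
  refine ⟨?_, by positivity, ?_⟩
  · refine ⟨convex_univ, fun x _ y _ a b ha hb hab => ?_⟩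
    have h1 := h.conv.2 (mem_univ ((2 : ℝ) • x)) (mem_univ ((2 : ℝ) • y)) ha hb hab
    have e : (2 : ℝ) • (a • x + b • y) = a • (2 : ℝ) • x + b • (2 : ℝ) • y := by module
    show φ ((2 : ℝ) • (a • x + b • y)) ≤ a • φ ((2 : ℝ) • x) + b • φ ((2 : ℝ) • y)
    rw [e]
    exact h1
  · intro v
    have h1 := h.sharp ((2 : ℝ) • v)
    have e1 : (2 : ℝ) • ((1 / 2 : ℝ) • v₀) = v₀ := by
      rw [smul_smul]
      norm_num
    have e2 : (2 : ℝ) • v - v₀ = (2 : ℝ) • (v - (1 / 2 : ℝ) • v₀) := by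
      rw [smul_sub, e1]
    rw [e2, norm_smul, Real.norm_eq_abs, abs_of_pos (by norm_num : (0:ℝ) < 2)] at h1
    rw [e1]
    linarith

/-- **The critical moment of the sum of the boxes that meet over the shells of a convex function.** -/
theorem convex_moment (hd : 1 ≤ d) {φ : E d → ℝ} {v₀ : E d} {κ : ℝ} (h : Sharp φ v₀ κ) {K sep : ℝ}
    (hK : 0 ≤ K) (hsep : 0 < sep) (hsep1 : sep ≤ 1) :
    ∃ C : ℝ, 0 < C ∧ ∀ N : ℝ, 1 ≤ N → ∀ (ι : Type) [Fintype ι] (ω : ι → E d)
      (f : ι → Fin d → Tub.Space d) (a : ι → Tub.Space d) (z : ℤ → Tub.Space d),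
      (∀ i, ‖ω i‖ ≤ 1) → (∀ i j, i ≠ j → sep / N ≤ ‖ω i - ω j‖) →
      (∀ i, Orthonormal ℝ (Fin.cons (Tub.nor (ω i)) (f i) : Fin (d + 1) → Tub.Space d)) →
      (∀ i, (Tub.box N (Tub.nor (ω i)) (f i) (a i) ∩
        closedBall (z ⌊N * (φ (ω i) - φ v₀)⌋) (K * N)).Nonempty) →
      ∫⁻ y, Tub.Fb N ω f a y ^ (1 + 1 / (d : ℝ)) ≤
        ENNReal.ofReal (C * N ^ (2 * (d + 1)) * ((1 + Real.log N) ^ (d + 2)) ^ (1 / (d : ℝ))) := by
  obtain ⟨m, rfl⟩ : ∃ m, d = m + 1 := ⟨d - 1, by omega⟩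
  have hκ := h.pos
  obtain ⟨L, hL0, hL⟩ := lip_ball h.conv 10
  obtain ⟨C0, hC0, hrow⟩ := row (sharp_two h)
  set η : ℝ := min (1 / 2) (κ * (sep / 8)) with hη
  have hη0 : 0 < η := lt_min (by norm_num) (by positivity)
  have hη1 : η ≤ 1 / 2 := min_le_left _ _
  have hη2 : η ≤ κ * (sep / 8) := min_le_right _ _
  set c : ℝ := min (sep / 8) (η / L) with hc
  have hc0 : 0 < c := lt_min (by positivity) (by positivity)
  have hc1 : c ≤ sep / 8 := min_le_left _ _
  have hc2 : c * L ≤ η := by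
    have : c ≤ η / L := min_le_right _ _
    rwa [le_div_iff₀ hL0] at this
  obtain ⟨C, hC, hmain⟩ := box_moment1 hd hK hsep1 hc0 hc1 hC0
  refine ⟨C, hC, ?_⟩
  intro N hN ι _ ω f a z hω hsp hf hz
  have hN0 : 0 < N := by linarith
  choose w hw1 hw2 hw3 using fun i => good_pt hd h hN0 hη0 hη1 (ω i)
  have hw1' : ∀ i, ‖w i - ω i‖ ≤ sep / (8 * N) := by
    intro i
    refine (hw1 i).trans ?_
    rw [div_le_div_iff₀ (by positivity) (by positivity)]
    nlinarith [mul_le_mul_of_nonneg_right hη2 hN0.le]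
  set M : ℝ := scal (m + 1) K N with hM
  set ψ : E (m + 1) → ℝ := fun u => φ ((2 : ℝ) • u) with hψ
  set x : ℝ → E (m + 1) := fun α => M⁻¹ • (z ⌊N * (α - φ v₀)⌋).fst with hx
  set σ : ℝ → ℝ := fun α => -4 / M * (z ⌊N * (α - φ v₀)⌋).snd with hσ
  have hcell : Measurable (fun α : ℝ => ⌊N * (α - φ v₀)⌋) :=
    ((measurable_id.sub_const _).const_mul N).floor
  have hxm : Measurable x :=
    (measurable_of_countable (fun j : ℤ => M⁻¹ • (z j).fst)).comp hcell
  have hσm : Measurable σ :=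
    (measurable_of_countable (fun j : ℤ => -4 / M * (z j).snd)).comp hcell
  have hψm : Measurable ψ := (sharp_two h).cont.measurable
  set b : E (m + 1) → E (m + 1) := fun u => x (ψ u) - σ (ψ u) • u with hb
  have hbm : Measurable b := (hxm.comp hψm).sub ((hσm.comp hψm).smul measurable_id)
  have hτm : Measurable (fun u => σ (ψ u)) := hσm.comp hψm
  refine hmain N hN ι ω f a (fun i => z ⌊N * (φ (ω i) - φ v₀)⌋) w univ ψ b (fun u => σ (ψ u))
    hω hsp hf hz hw1' MeasurableSet.univ (fun _ _ _ => mem_univ _) ?_ hψm hbm hτm ?_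
  · -- the vertices
    intro i u hu
    have h1 : ⌊N * (ψ u - φ v₀)⌋ = ⌊N * (φ (ω i) - φ v₀)⌋ := by
      rw [mem_closedBall, dist_eq_norm] at hu
      have h3 : ‖(2 : ℝ) • u - w i‖ < c / N := by
        have e3 : (2 : ℝ) • u - w i = (2 : ℝ) • (u - (1 / 2 : ℝ) • w i) := by
          rw [smul_sub, smul_smul]
          norm_num
        rw [e3, norm_smul, Real.norm_eq_abs, abs_of_pos (by norm_num : (0:ℝ) < 2)]
        have h4 : 2 * (c / (4 * N)) < c / N := by
          have h5 : 2 * (c / (4 * N)) = (c / N) / 2 := by field_simp; ring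
          have h6 : 0 < c / N := by positivity
          rw [h5]
          linarith
        linarith
      have hN1 : 1 / N ≤ 1 := by rw [div_le_one hN0]; exact hN
      have hwb : ‖w i‖ ≤ 2 := by
        have e5 : w i = (w i - ω i) + ω i := by abel
        rw [e5]
        have h6 : sep / (8 * N) ≤ 1 := by
          calc sep / (8 * N) ≤ 1 / (8 * N) := by gcongr
            _ = 1 / N / 8 := by field_simp
            _ ≤ 1 := by linarith
        exact (norm_add_le _ _).trans (by linarith [hw1' i, hω i])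
      have hcN : c / N ≤ 1 := by
        rw [div_le_one hN0]
        linarith
      have hub : ‖(2 : ℝ) • u‖ ≤ 3 := by
        have e5 : (2 : ℝ) • u = ((2 : ℝ) • u - w i) + w i := by abel
        rw [e5]
        exact (norm_add_le _ _).trans (by linarith)
      have h5 := hL ((2 : ℝ) • u) (w i) (by linarith) (by linarith)
      have h6 : N * |φ ((2 : ℝ) • u) - φ (w i)| < η := by
        calc N * |φ ((2 : ℝ) • u) - φ (w i)| ≤ N * (L * ‖(2 : ℝ) • u - w i‖) := by gcongr
          _ < N * (L * (c / N)) := by gcongr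
          _ = c * L := by field_simp
          _ ≤ η := hc2
      have h6' : |N * (φ ((2 : ℝ) • u) - φ (w i))| < η := by
        rw [abs_mul, abs_of_pos hN0]
        exact h6
      obtain ⟨h7, h8⟩ := abs_lt.1 h6'
      rw [Int.floor_eq_iff, hψ]
      dsimp only
      have h9 := hw2 i
      have h10 := hw3 i
      constructor <;> nlinarith
    constructor
    · show x (ψ u) - σ (ψ u) • u + σ (ψ u) • u = _
      rw [sub_add_cancel, hx]
      dsimp only
      rw [h1]
    · show σ (ψ u) = _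
      rw [hσ]
      dsimp only
      rw [h1]
  · -- the row bound
    intro lam c' hl hrl v hv
    have hv1 : ‖v‖ ≤ 1 := by simpa using hv
    refine le_trans ?_ (hrow x σ hxm hσm (2 * (2 / N)) lam c' (b v) v (by positivity) hl hrl hv1)
    rw [← lintegral_indicator measurableSet_closedBall]
    apply lintegral_mono
    intro u
    by_cases hu : u ∈ closedBall (0 : E (m + 1)) 1
    · have hu1 : ‖u‖ ≤ 1 := by simpa using hu
      simp only
      rw [indicator_of_mem hu, ic_of_le hu1, one_mul]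
      apply le_of_eq
      congr 1
      refine lintegral_congr fun s => ?_
      have e1 : sI univ (s - σ (ψ u)) = 1 := indicator_of_mem (mem_univ _) _
      have e : b u + s • u = x (ψ u) + (s - σ (ψ u)) • u := by
        show x (ψ u) - σ (ψ u) • u + s • u = _
        rw [sub_smul]
        abel
      rw [e, e1, one_mul]
    · rw [indicator_of_notMem hu]
      exact zero_le

end Pool.Agent.W2helper94.CT
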