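import Pool.Agent.W2helper94.CT.D
import Mathlib.NumberTheory.Harmonic.Bounds

set_option autoImplicit false

/-!
Counting separated points in thin shells.
-/

open MeasureTheory Set Metric
open scoped ENNReal NNReal

namespace Pool.Agent.W2helper94.CT

open Pool.Agent.W2helper94.KC Pool.Agent.W2helper94.CV
open Pool.Agent.H803R2.Kak

variable {m : ℕ}

/-- The volume of the part of a thin shell in a ball. -/
theorem thin_vol {φ : E (m + 1) → ℝ} {v₀ : E (m + 1)} {κ : ℝ} (h : Sharp φ v₀ κ) :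
    ∃ C : ℝ, 0 < C ∧ ∀ (α β ρ : ℝ) (y : E (m + 1)), 0 < ρ → α ≤ β →
      volume {x : E (m + 1) | φ x ∈ Icc α β ∧ ‖x - y‖ ≤ ρ} ≤ ENNReal.ofReal (C * (β - α) * ρ ^ m) := by
  obtain ⟨C1, hC1, hcap⟩ := MM_int (m := m)
  have hκ := h.pos
  refine ⟨κ⁻¹ * C1, by positivity, ?_⟩
  intro α β ρ y hρ hαβ
  have hφm : Measurable φ := h.cont.measurable
  set f : E (m + 1) → ℝ≥0∞ := fun x => (Icc α β).indicator (fun _ => 1) (φ x) * ic ρ (x - y) with hf
  have h1 : Measurable (fun x => (Icc α β).indicator (fun _ => (1 : ℝ≥0∞)) (φ x)) :=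
    (measurable_const.indicator measurableSet_Icc).comp hφm
  have hfm : Measurable f := h1.mul (meas_ic_sub ρ y)
  have hset : MeasurableSet {x : E (m + 1) | φ x ∈ Icc α β ∧ ‖x - y‖ ≤ ρ} :=
    (hφm measurableSet_Icc).inter
      (measurableSet_le (measurable_id.sub_const y).norm measurable_const)
  have e0 : volume {x : E (m + 1) | φ x ∈ Icc α β ∧ ‖x - y‖ ≤ ρ} = ∫⁻ x, f x := by
    rw [← lintegral_indicator_one hset]
    refine lintegral_congr fun x => ?_
    by_cases hx : φ x ∈ Icc α β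
    · by_cases hy : ‖x - y‖ ≤ ρ
      · rw [indicator_of_mem (show x ∈ {x : E (m + 1) | φ x ∈ Icc α β ∧ ‖x - y‖ ≤ ρ} from ⟨hx, hy⟩)]
        simp only [hf, Pi.one_apply]
        rw [indicator_of_mem hx, ic_of_le hy, one_mul]
      · rw [indicator_of_notMem (fun h3 => hy h3.2)]
        simp only [hf]
        rw [ic_of_not hy, mul_zero]
    · rw [indicator_of_notMem (fun h3 => hx h3.1)]
      simp only [hf]
      rw [indicator_of_notMem hx, zero_mul]
  rw [e0]
  set S := sphere (0 : E (m + 1)) 1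
  calc ∫⁻ x, f x = ∫⁻ z, f (v₀ + z) := (lintegral_add_left_eq_self f v₀).symm
    _ = ∫⁻ θ : S, (∫⁻ t in Ioi (0:ℝ), ENNReal.ofReal (t ^ m) * f (v₀ + t • (θ : E (m + 1)))) ∂(sg (m + 1)) :=
        polar m (fun z => f (v₀ + z)) (hfm.comp (measurable_const_add v₀))
    _ ≤ ∫⁻ θ : S, (MM ρ (y - v₀) (θ : E (m + 1)) * ENNReal.ofReal (κ⁻¹ * (β - α))) ∂(sg (m + 1)) := by
        apply lintegral_mono
        intro θ
        show ∫⁻ t in Ioi (0:ℝ), ENNReal.ofReal (t ^ m) * f (v₀ + t • (θ : E (m + 1))) ≤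
          MM ρ (y - v₀) (θ : E (m + 1)) * ENNReal.ofReal (κ⁻¹ * (β - α))
        have hθ : ‖(θ : E (m + 1))‖ = 1 := by simp
        have hMM : MM ρ (y - v₀) (θ : E (m + 1)) ≠ ∞ := by
          unfold MM
          apply ENNReal.mul_ne_top ENNReal.ofReal_ne_top
          exact ne_top_of_le_ne_top ENNReal.one_ne_top (indicator_le_self' (fun _ _ => zero_le_one) _)
        have hI : Measurable ((Icc α β).indicator (fun _ => (1 : ℝ≥0∞))) :=
          measurable_const.indicator measurableSet_Icc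
        calc ∫⁻ t in Ioi (0:ℝ), ENNReal.ofReal (t ^ m) * f (v₀ + t • (θ : E (m + 1)))
            ≤ ∫⁻ t in Ioi (0:ℝ), MM ρ (y - v₀) (θ : E (m + 1)) *
                (Icc α β).indicator (fun _ => (1 : ℝ≥0∞)) (ray φ v₀ κ θ t) := by
              refine setLIntegral_mono' measurableSet_Ioi fun t ht => ?_
              have ht0 : (0:ℝ) < t := ht
              have e1 : ray φ v₀ κ θ t = φ (v₀ + t • (θ : E (m + 1))) := by
                unfold ray
                rw [if_neg (not_le.2 ht0)]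
              rw [e1]
              simp only [hf]
              by_cases hx : φ (v₀ + t • (θ : E (m + 1))) ∈ Icc α β
              swap
              · rw [indicator_of_notMem hx]; simp
              by_cases hy : ‖v₀ + t • (θ : E (m + 1)) - y‖ ≤ ρ
              swap
              · rw [ic_of_not hy]; simp
              rw [indicator_of_mem hx, ic_of_le hy, mul_one, mul_one, mul_one]
              apply MM_ge ht0.le hθ
              have e2 : t • (θ : E (m + 1)) - (y - v₀) = v₀ + t • (θ : E (m + 1)) - y := by abel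
              rw [e2]
              exact hy
          _ ≤ ∫⁻ t, MM ρ (y - v₀) (θ : E (m + 1)) *
                (Icc α β).indicator (fun _ => (1 : ℝ≥0∞)) (ray φ v₀ κ θ t) :=
              setLIntegral_le_lintegral _ _
          _ = MM ρ (y - v₀) (θ : E (m + 1)) *
                ∫⁻ t, (Icc α β).indicator (fun _ => (1 : ℝ≥0∞)) (ray φ v₀ κ θ t) :=
              lintegral_const_mul' _ _ hMM
          _ ≤ MM ρ (y - v₀) (θ : E (m + 1)) * (ENNReal.ofReal κ⁻¹ *
                ∫⁻ a, (Icc α β).indicator (fun _ => (1 : ℝ≥0∞)) a) := by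
              gcongr
              exact expand_map (measurable_ray h _) hκ (ray_expand h hθ) hI
          _ = _ := by
              rw [lintegral_indicator measurableSet_Icc, setLIntegral_one, Real.volume_Icc,
                ← ENNReal.ofReal_mul (by positivity)]
    _ = (∫⁻ θ : S, MM ρ (y - v₀) (θ : E (m + 1)) ∂(sg (m + 1))) * ENNReal.ofReal (κ⁻¹ * (β - α)) :=
        lintegral_mul_const' _ _ ENNReal.ofReal_ne_top
    _ ≤ ENNReal.ofReal (C1 * ρ ^ m) * ENNReal.ofReal (κ⁻¹ * (β - α)) := by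
        gcongr
        exact hcap ρ (y - v₀) hρ
    _ = _ := by
        rw [← ENNReal.ofReal_mul (by positivity)]
        congr 1
        ring

/-- The number of separated points of a thin shell in a ball. -/
theorem count {φ : E (m + 1) → ℝ} {v₀ : E (m + 1)} {κ : ℝ} (h : Sharp φ v₀ κ) {sep : ℝ}
    (hsep : 0 < sep) (hsep1 : sep ≤ 1) :
    ∃ C : ℝ, 0 < C ∧ ∀ (N : ℝ), 1 ≤ N → ∀ (ι : Type) [Fintype ι] (ω : ι → E (m + 1)),
      (∀ i, ‖ω i‖ ≤ 1) → (∀ i j, i ≠ j → sep / N ≤ ‖ω i - ω j‖) →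
      ∀ (J : Finset ι) (α ρ : ℝ) (y : E (m + 1)), 0 ≤ ρ →
      (∀ i ∈ J, φ (ω i) ∈ Icc α (α + 1 / N) ∧ ‖ω i - y‖ ≤ ρ) →
      (J.card : ℝ) ≤ C * (1 + N * ρ) ^ m := by
  obtain ⟨C1, hC1, hvol⟩ := thin_vol h
  obtain ⟨L, hL0, hL⟩ := lip_ball h.conv 10
  have hω0 := omg_pos (m + 1)
  refine ⟨C1 * (4 / sep + 2 * L) * (4 / sep) ^ m / omg (m + 1), by positivity, ?_⟩
  intro N hN ι _ ω hω hsp J α ρ y hρ hJ
  have hN0 : 0 < N := by linarith
  set e : ℝ := sep / (4 * N) with he
  have he0 : 0 < e := by positivity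
  have he1 : e ≤ 1 := by
    rw [he, div_le_one (by positivity)]
    linarith
  set T : Set (E (m + 1)) := {x | φ x ∈ Icc (α - L * e) (α + 1 / N + L * e) ∧ ‖x - y‖ ≤ ρ + e} with hT
  have hsub : ∀ i ∈ J, closedBall (ω i) e ⊆ T := by
    intro i hi x hx
    rw [mem_closedBall, dist_eq_norm] at hx
    have hxn : ‖x‖ < 10 := by
      have e5 : x = (x - ω i) + ω i := by abel
      rw [e5]
      exact lt_of_le_of_lt (norm_add_le _ _) (by linarith [hω i])
    have h1 := hL x (ω i) hxn (by linarith [hω i])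
    have h2 : L * ‖x - ω i‖ ≤ L * e := by gcongr
    obtain ⟨h3, h4⟩ := abs_le.1 (h1.trans h2)
    obtain ⟨⟨h5, h6⟩, h7⟩ := hJ i hi
    refine ⟨⟨by linarith, by linarith⟩, ?_⟩
    have e6 : x - y = (x - ω i) + (ω i - y) := by abel
    rw [e6]
    exact (norm_add_le _ _).trans (by linarith)
  have hdis : (J : Set ι).PairwiseDisjoint (fun i => closedBall (ω i) e) := by
    intro i _ j _ hij
    apply closedBall_disjoint_closedBall
    rw [dist_eq_norm]
    have h1 := hsp i j hij
    have h2 : sep / N = 4 * e := by rw [he]; field_simp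
    linarith
  have hsum : ∑ i ∈ J, volume (closedBall (ω i) e) ≤ volume T := by
    rw [← measure_biUnion_finset hdis (fun i _ => measurableSet_closedBall)]
    exact measure_mono (iUnion₂_subset hsub)
  have hone : ∀ i, volume (closedBall (ω i) e) = ENNReal.ofReal (e ^ (m + 1) * omg (m + 1)) := by
    intro i
    rw [Measure.addHaar_closedBall_center, omg_scale (m + 1) he0]
  simp only [hone] at hsum
  rw [Finset.sum_const, nsmul_eq_mul] at hsum
  have h3 := hsum.trans (hvol (α - L * e) (α + 1 / N + L * e) (ρ + e) y (by positivity)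
    (by have : 0 < 1 / N := by positivity
        have : 0 < L * e := by positivity
        linarith))
  have e1 : α + 1 / N + L * e - (α - L * e) = (4 / sep + 2 * L) * e := by
    rw [he]
    field_simp
    ring
  rw [e1, ← ENNReal.ofReal_natCast, ← ENNReal.ofReal_mul (by positivity),
    ENNReal.ofReal_le_ofReal_iff (by positivity)] at h3
  -- the final computation
  have h4 : (J.card : ℝ) * (e ^ m * omg (m + 1)) ≤ C1 * (4 / sep + 2 * L) * (ρ + e) ^ m := by
    have h5 : (J.card : ℝ) * (e ^ m * omg (m + 1)) * e ≤ C1 * (4 / sep + 2 * L) * (ρ + e) ^ m * e := by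
      calc (J.card : ℝ) * (e ^ m * omg (m + 1)) * e = J.card * (e ^ (m + 1) * omg (m + 1)) := by ring
        _ ≤ C1 * ((4 / sep + 2 * L) * e) * (ρ + e) ^ m := h3
        _ = _ := by ring
    exact le_of_mul_le_mul_right h5 he0
  have h6 : ρ + e ≤ (4 / sep * (1 + N * ρ)) * e := by
    rw [he]
    have h7 : 4 / sep * (1 + N * ρ) * (sep / (4 * N)) = ρ + 1 / N := by
      field_simp
      ring
    rw [h7]
    have h8 : sep / (4 * N) ≤ 1 / N := by
      rw [div_le_div_iff₀ (by positivity) hN0]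
      nlinarith
    linarith
  have h7 : (ρ + e) ^ m ≤ (4 / sep) ^ m * (1 + N * ρ) ^ m * e ^ m := by
    rw [← mul_pow, ← mul_pow]
    exact pow_le_pow_left₀ (by positivity) h6 m
  have hem : 0 < e ^ m := by positivity
  have h8 : (J.card : ℝ) * omg (m + 1) ≤ C1 * (4 / sep + 2 * L) * ((4 / sep) ^ m * (1 + N * ρ) ^ m) := by
    have h9 : (J.card : ℝ) * omg (m + 1) * e ^ m ≤
        C1 * (4 / sep + 2 * L) * ((4 / sep) ^ m * (1 + N * ρ) ^ m) * e ^ m := by
      calc (J.card : ℝ) * omg (m + 1) * e ^ m = J.card * (e ^ m * omg (m + 1)) := by ring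
        _ ≤ C1 * (4 / sep + 2 * L) * (ρ + e) ^ m := h4
        _ ≤ C1 * (4 / sep + 2 * L) * ((4 / sep) ^ m * (1 + N * ρ) ^ m * e ^ m) := by gcongr
        _ = _ := by ring
    exact le_of_mul_le_mul_right h9 hem
  calc (J.card : ℝ) = J.card * omg (m + 1) / omg (m + 1) := by field_simp
    _ ≤ C1 * (4 / sep + 2 * L) * ((4 / sep) ^ m * (1 + N * ρ) ^ m) / omg (m + 1) := by gcongr
    _ = _ := by ring

end Pool.Agent.W2helper94.CT
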