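import Pool.Agent.W2helper94.CT.E
import Pool.Agent.W2helper94.CT.C2

set_option autoImplicit false

/-!
The one sided row bound for a finite family of tubes that leave a set without focusing.
-/

open MeasureTheory Set Metric
open scoped ENNReal NNReal

namespace Pool.Agent.W2helper94.CT

open Pool.Agent.W2helper94.KC Pool.Agent.W2helper94.CV
open Pool.Agent.H803R2.Kak

variable {m : ℕ}

/-- The number of the shell of `ω`. -/
noncomputable def cl {d : ℕ} (N : ℝ) (φ : E d → ℝ) (v₀ ω : E d) : ℤ := ⌊N * (φ ω - φ v₀)⌋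

/-- The heights at which two lines are close, beyond the height `σ + lam`. -/
def Sh {d : ℕ} (lam r σ : ℝ) (q u p w : E d) : Set ℝ :=
  {s | lam ≤ s - σ ∧ s - σ ≤ 1 ∧ ‖(q + (s - σ) • u) - (p + s • w)‖ ≤ 2 * r}

theorem measurableSet_Sh {d : ℕ} (lam r σ : ℝ) (q u p w : E d) :
    MeasurableSet (Sh lam r σ q u p w) := by
  have h1 : Measurable (fun s : ℝ => s - σ) := measurable_id.sub_const σ
  exact (measurableSet_le measurable_const h1).inter ((measurableSet_le h1 measurable_const).inter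
    (measurableSet_le (((h1.smul_const u).const_add q).sub
      ((measurable_id.smul_const w).const_add p)).norm measurable_const))

/-- The set of heights at which a line is close to the tubes of a shell is short. -/
theorem window_len {φ : E (m + 1) → ℝ} (hφ : ConvexOn ℝ univ φ) {v₀ : E (m + 1)} {L : ℝ}
    (hL0 : 0 < L) (hL : ∀ v w : E (m + 1), ‖v‖ < 200 → ‖w‖ < 200 → |φ v - φ w| ≤ L * ‖v - w‖)
    {N r lam σ : ℝ} (hN : 1 ≤ N) (hr : r = 4 / N) (hl : 0 < lam) (hrl : r ≤ 8 * lam)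
    {ω0 ω1 ω2 w p q1 q2 : E (m + 1)} (hω0 : ‖ω0‖ ≤ 1) (hω1 : ‖ω1‖ ≤ 1)
    (hw : ‖(2 : ℝ) • w - ω0‖ ≤ 1 / N) (hcl : cl N φ v₀ ω1 = cl N φ v₀ ω2)
    (hA : ∀ τ : ℝ, 0 < τ → τ ≤ 1 → φ ω2 ≤ φ (ω2 + (2 / τ) • (q2 - q1))) {s1 s2 : ℝ}
    (h1 : s1 ∈ Sh lam r σ q1 ((1 / 2 : ℝ) • ω1) p w) (h2 : s2 ∈ Sh lam r σ q2 ((1 / 2 : ℝ) • ω2) p w)
    (h12 : s1 ≤ s2) :
    (s2 - s1) * ((cl N φ v₀ ω2 : ℝ) - cl N φ v₀ ω0 - 1 - L) ≤ 1 + 32 * L := by
  have hN0 : 0 < N := by linarith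
  have hr0 : 0 < r := by rw [hr]; positivity
  obtain ⟨h1a, h1b, h1c⟩ := h1
  obtain ⟨h2a, h2b, h2c⟩ := h2
  set τ1 := s1 - σ with hτ1
  set τ2 := s2 - σ with hτ2
  have hτ10 : 0 < τ1 := by linarith
  have hτ20 : 0 < τ2 := by linarith
  have hττ : τ1 ≤ τ2 := by rw [hτ1, hτ2]; linarith
  have hss : s2 - s1 = τ2 - τ1 := by rw [hτ1, hτ2]; ring
  set a : ℝ := 2 / τ2 with ha
  have ha0 : 0 < a := by positivity
  have haτ : a * τ2 / 2 = 1 := by rw [ha]; field_simp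
  set ε1 := (q1 + τ1 • ((1 / 2 : ℝ) • ω1)) - (p + s1 • w) with hε1
  set ε2 := (q2 + τ2 • ((1 / 2 : ℝ) • ω2)) - (p + s2 • w) with hε2
  set X := ω2 + a • (q2 - q1) with hX
  set Y := (a * (τ2 - τ1) / 2) • ((2 : ℝ) • w) + (a * τ1 / 2) • ω1 with hY
  have hXY : X - Y = a • (ε2 - ε1) := by
    have e1 : X = (a * τ2 / 2) • ω2 + a • (q2 - q1) := by rw [hX, haτ, one_smul]
    have e2 : s2 = τ2 + σ := by rw [hτ2]; ring
    have e3 : s1 = τ1 + σ := by rw [hτ1]; ring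
    rw [e1, hY, hε1, hε2, e2, e3]
    module
  have hεn : ‖a • (ε2 - ε1)‖ ≤ a * (4 * r) := by
    rw [norm_smul, Real.norm_eq_abs, abs_of_pos ha0]
    gcongr
    exact (norm_sub_le _ _).trans (by linarith)
  have har : a * (4 * r) ≤ 64 := by
    have h3 : 4 * r ≤ 32 * τ2 := by linarith
    calc a * (4 * r) ≤ a * (32 * τ2) := by gcongr
      _ = 64 * (a * τ2 / 2) := by ring
      _ = 64 := by rw [haτ, mul_one]
  have hw2 : ‖(2 : ℝ) • w‖ ≤ 2 := by
    have e5 : (2 : ℝ) • w = ((2 : ℝ) • w - ω0) + ω0 := by abel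
    rw [e5]
    have : 1 / N ≤ 1 := by rw [div_le_one hN0]; exact hN
    exact (norm_add_le _ _).trans (by linarith)
  have hc1 : 0 ≤ a * (τ2 - τ1) / 2 := by
    have : 0 ≤ τ2 - τ1 := by linarith
    positivity
  have hc2 : 0 ≤ a * τ1 / 2 := by positivity
  have hcs : a * (τ2 - τ1) / 2 + a * τ1 / 2 = 1 := by linarith
  have hYn : ‖Y‖ ≤ 2 := by
    have h3 : ‖(a * (τ2 - τ1) / 2) • ((2 : ℝ) • w)‖ = (a * (τ2 - τ1) / 2) * ‖(2 : ℝ) • w‖ := by
      rw [norm_smul _ ((2 : ℝ) • w), Real.norm_eq_abs, abs_of_nonneg hc1]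
    have h4 : ‖(a * τ1 / 2) • ω1‖ = (a * τ1 / 2) * ‖ω1‖ := by
      rw [norm_smul, Real.norm_eq_abs, abs_of_nonneg hc2]
    rw [hY]
    refine (norm_add_le _ _).trans ?_
    rw [h3, h4]
    nlinarith [mul_le_mul_of_nonneg_left hw2 hc1, mul_le_mul_of_nonneg_left hω1 hc2]
  have hXn : ‖X‖ ≤ 66 := by
    have e5 : X = (X - Y) + Y := by abel
    rw [e5, hXY]
    exact (norm_add_le _ _).trans (by linarith)
  have h3 := hL X Y (by linarith) (by linarith)
  rw [hXY] at h3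
  have h4 : φ X ≤ φ Y + L * (a * (4 * r)) := by
    have h5 : L * ‖a • (ε2 - ε1)‖ ≤ L * (a * (4 * r)) := by gcongr
    have := le_abs_self (φ X - φ Y)
    linarith
  have h5 : φ Y ≤ (a * (τ2 - τ1) / 2) * φ ((2 : ℝ) • w) + (a * τ1 / 2) * φ ω1 :=
    hφ.2 (mem_univ _) (mem_univ _) hc1 hc2 hcs
  have h6 : φ ω2 ≤ φ X := hA τ2 hτ20 h2b
  have h7 : φ ((2 : ℝ) • w) ≤ φ ω0 + L / N := by
    have h8 := hL ((2 : ℝ) • w) ω0 (by linarith) (by linarith)
    have h9 : L * ‖(2 : ℝ) • w - ω0‖ ≤ L * (1 / N) := by gcongr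
    have := le_abs_self (φ ((2 : ℝ) • w) - φ ω0)
    have e : L / N = L * (1 / N) := by ring
    linarith
  -- the cells
  have hj : (cl N φ v₀ ω2 : ℝ) ≤ N * (φ ω2 - φ v₀) := Int.floor_le _
  have hj1 : N * (φ ω1 - φ v₀) < (cl N φ v₀ ω2 : ℝ) + 1 := by
    rw [← hcl]
    exact Int.lt_floor_add_one _
  have hj0 : N * (φ ω0 - φ v₀) < (cl N φ v₀ ω0 : ℝ) + 1 := Int.lt_floor_add_one _
  set j : ℝ := (cl N φ v₀ ω2 : ℝ) with hjj
  set j0 : ℝ := (cl N φ v₀ ω0 : ℝ) with hjj0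
  have h8 : φ ω2 ≤ (a * (τ2 - τ1) / 2) * (φ ω0 + L / N) + (a * τ1 / 2) * φ ω1 + L * (a * (4 * r)) := by
    have := mul_le_mul_of_nonneg_left h7 hc1
    linarith
  -- multiply by `N τ₂ = 2 N / a`
  have h9 : τ2 * (N * (φ ω2 - φ v₀)) ≤ (τ2 - τ1) * (N * (φ ω0 - φ v₀) + L) +
      τ1 * (N * (φ ω1 - φ v₀)) + 32 * L := by
    have h10 : (N * τ2) * φ ω2 ≤ (N * τ2) * ((a * (τ2 - τ1) / 2) * (φ ω0 + L / N) +
        (a * τ1 / 2) * φ ω1 + L * (a * (4 * r))) := by gcongr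
    have e1 : (N * τ2) * ((a * (τ2 - τ1) / 2) * (φ ω0 + L / N) +
        (a * τ1 / 2) * φ ω1 + L * (a * (4 * r))) =
        (a * τ2 / 2) * ((τ2 - τ1) * (N * φ ω0 + L) + τ1 * (N * φ ω1) + 8 * L * (N * r)) := by
      field_simp
      ring
    rw [e1, haτ, one_mul] at h10
    have e2 : N * r = 4 := by rw [hr]; field_simp
    rw [e2] at h10
    nlinarith
  have h10 : τ2 * j ≤ τ2 * (N * (φ ω2 - φ v₀)) := by gcongr
  have h11 : (τ2 - τ1) * (N * (φ ω0 - φ v₀) + L) ≤ (τ2 - τ1) * (j0 + 1 + L) := by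
    have : 0 ≤ τ2 - τ1 := by linarith
    apply mul_le_mul_of_nonneg_left _ this
    linarith
  have h12' : τ1 * (N * (φ ω1 - φ v₀)) ≤ τ1 * (j + 1) := by
    apply mul_le_mul_of_nonneg_left _ hτ10.le
    linarith
  rw [hss]
  have h13 : τ1 ≤ 1 := h1b
  nlinarith

theorem vol_of_diam {W : Set ℝ} {B : ℝ} (h : ∀ s1 ∈ W, ∀ s2 ∈ W, s1 ≤ s2 → s2 - s1 ≤ B) :
    volume W ≤ ENNReal.ofReal B := by
  refine (Real.volume_le_diam W).trans (Metric.ediam_le fun s1 h1 s2 h2 => ?_)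
  rw [edist_dist, Real.dist_eq]
  apply ENNReal.ofReal_le_ofReal
  rcases le_total s1 s2 with h3 | h3
  · rw [abs_sub_comm, abs_of_nonneg (by linarith)]
    exact h s1 h1 s2 h2 h3
  · rw [abs_of_nonneg (by linarith)]
    exact h s2 h2 s1 h1 h3

/-- The sum over the tubes of one shell. -/
theorem shell_sum {φ : E (m + 1) → ℝ} {v₀ : E (m + 1)} {κ : ℝ} (h : Sharp φ v₀ κ) {sep β : ℝ}
    (hsep : 0 < sep) (hsep1 : sep ≤ 1) (hβ : 0 < β) (hβ1 : β ≤ 1) :
    ∃ C : ℝ, 0 < C ∧ ∀ (N r lam : ℝ), 1 ≤ N → r = 4 / N → 0 < lam → r ≤ 8 * lam →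
      ∀ (ι : Type) [Fintype ι] (ω q : ι → E (m + 1)),
      (∀ i, ‖ω i‖ ≤ 1) → (∀ i j, i ≠ j → sep / N ≤ ‖ω i - ω j‖) →
      (∀ i i', cl N φ v₀ (ω i) = cl N φ v₀ (ω i') → ∀ τ : ℝ, 0 < τ → τ ≤ 1 →
        φ (ω i) ≤ φ (ω i + (2 / τ) • (q i - q i'))) →
      (∀ i i', cl N φ v₀ (ω i) = cl N φ v₀ (ω i') → ∀ τ : ℝ, 0 < τ → τ ≤ 1 →
        β * τ * ‖ω i - ω i'‖ ≤ ‖(2 : ℝ) • (q i - q i') + τ • (ω i - ω i')‖) →
      ∀ (σ : ℝ) (p w ω0 : E (m + 1)), ‖ω0‖ ≤ 1 → ‖(2 : ℝ) • w - ω0‖ ≤ 1 / N → ∀ (n : ℕ)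
      (J : Finset ι), (∀ i ∈ J, cl N φ v₀ (ω i) = cl N φ v₀ ω0 + n) →
      ∑ i ∈ J, volume (Sh lam r σ (q i) ((1 / 2 : ℝ) • ω i) p w) ≤
        ENNReal.ofReal (C * lam⁻¹ ^ m * ((n : ℝ) + 1)⁻¹) := by
  obtain ⟨C1, hC1, hcount⟩ := count h hsep hsep1
  obtain ⟨L, hL0, hL⟩ := lip_ball h.conv 200
  refine ⟨C1 * (33 / β) ^ m * (6 + 66 * L), by positivity, ?_⟩
  intro N r lam hN hr hl hrl ι _ ω q hω hsp hA hB σ p w ω0 hω0 hw n J hJ
  have hN0 : 0 < N := by linarith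
  have hr0 : 0 < r := by rw [hr]; positivity
  classical
  rcases lt_or_ge 1 lam with hlam | hlam
  · have : ∀ i ∈ J, volume (Sh lam r σ (q i) ((1 / 2 : ℝ) • ω i) p w) = 0 := by
      intro i _
      have e : Sh lam r σ (q i) ((1 / 2 : ℝ) • ω i) p w = ∅ := by
        apply eq_empty_of_forall_notMem
        rintro s ⟨h1, h2, -⟩
        linarith
      rw [e, measure_empty]
    rw [Finset.sum_eq_zero this]
    exact zero_le
  set S : ι → Set ℝ := fun i => Sh lam r σ (q i) ((1 / 2 : ℝ) • ω i) p w with hS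
  have hSm : ∀ i, MeasurableSet (S i) := fun i => measurableSet_Sh _ _ _ _ _ _ _
  set W : Set ℝ := ⋃ i ∈ J, S i with hW
  have hWm : MeasurableSet W := Finset.measurableSet_biUnion J (fun i _ => hSm i)
  set Cn : ℝ := C1 * (33 / β) ^ m * lam⁻¹ ^ m with hCn
  have hCn0 : 0 ≤ Cn := by positivity
  -- the multiplicity
  have hmult : ∀ s : ℝ, ∑ i ∈ J, (S i).indicator (fun _ => (1 : ℝ≥0∞)) s ≤
      ENNReal.ofReal Cn * W.indicator (fun _ => 1) s := by
    intro s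
    by_cases hs : s ∈ W
    · rw [indicator_of_mem hs, mul_one]
      set J' : Finset ι := J.filter (fun i => s ∈ S i) with hJ'
      have e1 : ∑ i ∈ J, (S i).indicator (fun _ => (1 : ℝ≥0∞)) s = (J'.card : ℝ≥0∞) := by
        rw [hJ', Finset.card_filter, Nat.cast_sum]
        refine Finset.sum_congr rfl fun i _ => ?_
        by_cases hi : s ∈ S i
        · rw [indicator_of_mem hi, if_pos hi, Nat.cast_one]
        · rw [indicator_of_notMem hi, if_neg hi, Nat.cast_zero]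
      rw [e1, ← ENNReal.ofReal_natCast]
      apply ENNReal.ofReal_le_ofReal
      obtain ⟨i1, hi1, hs1⟩ := mem_iUnion₂.1 hs
      have hc := hcount N hN ι ω hω hsp J' (φ v₀ + (cl N φ v₀ ω0 + n : ℤ) / N) (8 * r / (β * lam))
        (ω i1) (by positivity) (by
          intro i hi
          obtain ⟨hiJ, his⟩ := Finset.mem_filter.1 hi
          constructor
          · have h1 := hJ i hiJ
            have h2 : ((cl N φ v₀ (ω i) : ℤ) : ℝ) ≤ N * (φ (ω i) - φ v₀) := Int.floor_le _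
            have h3 : N * (φ (ω i) - φ v₀) < (cl N φ v₀ (ω i) : ℤ) + 1 := Int.lt_floor_add_one _
            rw [h1] at h2 h3
            constructor
            · have h4 : ((cl N φ v₀ ω0 + n : ℤ) : ℝ) / N ≤ φ (ω i) - φ v₀ := by
                rw [div_le_iff₀ hN0]; linarith
              linarith
            · have h4 : φ (ω i) - φ v₀ ≤ (((cl N φ v₀ ω0 + n : ℤ) : ℝ) + 1) / N := by
                rw [le_div_iff₀ hN0]; linarith
              rw [add_div] at h4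
              linarith
          · have hcc : cl N φ v₀ (ω i) = cl N φ v₀ (ω i1) := by rw [hJ i hiJ, hJ i1 hi1]
            obtain ⟨h1, h2, h3⟩ := his
            obtain ⟨-, -, h4⟩ := hs1
            have hτ0 : 0 < s - σ := by linarith
            have h5 := hB i i1 hcc (s - σ) hτ0 h2
            have h6 : ‖(2 : ℝ) • (q i - q i1) + (s - σ) • (ω i - ω i1)‖ ≤ 8 * r := by
              have e : (2 : ℝ) • (q i - q i1) + (s - σ) • (ω i - ω i1) =
                  (2 : ℝ) • (((q i + (s - σ) • ((1 / 2 : ℝ) • ω i)) - (p + s • w)) -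
                    ((q i1 + (s - σ) • ((1 / 2 : ℝ) • ω i1)) - (p + s • w))) := by module
              rw [e, norm_smul, Real.norm_eq_abs, abs_of_pos (by norm_num : (0:ℝ) < 2)]
              have := norm_sub_le ((q i + (s - σ) • ((1 / 2 : ℝ) • ω i)) - (p + s • w))
                ((q i1 + (s - σ) • ((1 / 2 : ℝ) • ω i1)) - (p + s • w))
              linarith
            rw [le_div_iff₀ (by positivity)]
            have h7 : β * lam * ‖ω i - ω i1‖ ≤ β * (s - σ) * ‖ω i - ω i1‖ := by gcongr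
            calc ‖ω i - ω i1‖ * (β * lam) = β * lam * ‖ω i - ω i1‖ := by ring
              _ ≤ 8 * r := by linarith)
      refine hc.trans ?_
      have h8 : N * (8 * r / (β * lam)) = 32 / (β * lam) := by
        rw [hr]
        field_simp
        ring
      have hβl : β * lam ≤ 1 := by
        calc β * lam ≤ 1 * 1 := by gcongr
          _ = 1 := one_mul 1
      have h9 : 1 + 32 / (β * lam) ≤ 33 / (β * lam) := by
        have h10 : (1 : ℝ) ≤ 1 / (β * lam) := by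
          rw [le_div_iff₀ (by positivity)]
          linarith
        have e : 33 / (β * lam) = 1 / (β * lam) + 32 / (β * lam) := by ring
        linarith
      rw [h8, hCn]
      calc C1 * (1 + 32 / (β * lam)) ^ m ≤ C1 * (33 / (β * lam)) ^ m := by gcongr
        _ = C1 * (33 / β) ^ m * lam⁻¹ ^ m := by
            rw [mul_assoc, ← mul_pow]
            congr 2
            field_simp
    · have h0 : ∀ i ∈ J, (S i).indicator (fun _ => (1 : ℝ≥0∞)) s = 0 := by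
        intro i hi
        apply indicator_of_notMem
        intro h1
        exact hs (mem_iUnion₂.2 ⟨i, hi, h1⟩)
      rw [Finset.sum_eq_zero h0]
      exact zero_le
  -- the length
  have hlen : volume W ≤ ENNReal.ofReal ((6 + 66 * L) * ((n : ℝ) + 1)⁻¹) := by
    apply vol_of_diam
    intro s1 h1 s2 h2 h12
    obtain ⟨i1, hi1, hs1⟩ := mem_iUnion₂.1 h1
    obtain ⟨i2, hi2, hs2⟩ := mem_iUnion₂.1 h2
    have hcc : cl N φ v₀ (ω i1) = cl N φ v₀ (ω i2) := by rw [hJ i1 hi1, hJ i2 hi2]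
    have h3 := window_len h.conv hL0 hL hN hr hl hrl hω0 (hω i1) hw hcc
      (hA i2 i1 hcc.symm) hs1 hs2 h12
    have e1 : (cl N φ v₀ (ω i2) : ℝ) - cl N φ v₀ ω0 = n := by
      rw [hJ i2 hi2]
      push_cast
      ring
    rw [e1] at h3
    have h4 : s2 - s1 ≤ 1 := by linarith [hs1.1, hs2.2.1]
    have hn0 : (0 : ℝ) ≤ n := Nat.cast_nonneg n
    rw [← div_eq_mul_inv, le_div_iff₀ (by positivity)]
    rcases le_or_gt (n : ℝ) (3 + 2 * L) with h5 | h5
    · nlinarith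
    · have h6 : ((n : ℝ) + 1) / 2 ≤ n - 1 - L := by linarith
      have h7 : (s2 - s1) * (((n : ℝ) + 1) / 2) ≤ (s2 - s1) * (n - 1 - L) := by
        apply mul_le_mul_of_nonneg_left h6
        linarith
      nlinarith
  calc ∑ i ∈ J, volume (S i) = ∫⁻ s, ∑ i ∈ J, (S i).indicator (fun _ => (1 : ℝ≥0∞)) s := by
        rw [lintegral_finsetSum]
        · refine Finset.sum_congr rfl fun i _ => ?_
          rw [lintegral_indicator (hSm i), setLIntegral_one]
        · intro i _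
          exact measurable_const.indicator (hSm i)
    _ ≤ ∫⁻ s, ENNReal.ofReal Cn * W.indicator (fun _ => 1) s := lintegral_mono hmult
    _ = ENNReal.ofReal Cn * volume W := by
        rw [lintegral_const_mul' _ _ ENNReal.ofReal_ne_top, lintegral_indicator hWm, setLIntegral_one]
    _ ≤ ENNReal.ofReal Cn * ENNReal.ofReal ((6 + 66 * L) * ((n : ℝ) + 1)⁻¹) := by gcongr
    _ = _ := by
        rw [← ENNReal.ofReal_mul hCn0]
        congr 1
        rw [hCn]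
        ring

end Pool.Agent.W2helper94.CT
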