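import Pool.Agent.W2helper94.CT.F

set_option autoImplicit false

/-!
The row bound for the discrete family.
-/

open MeasureTheory Set Metric
open scoped ENNReal NNReal

namespace Pool.Agent.W2helper94.CT

open Pool.Agent.W2helper94.KC Pool.Agent.W2helper94.CV
open Pool.Agent.H803R2.Kak

variable {m : ℕ}

theorem harm (n : ℕ) : ∑ k ∈ Finset.range (n + 1), ((k : ℝ) + 1)⁻¹ ≤ 1 + Real.log ((n : ℝ) + 1) := by
  have h := harmonic_le_one_add_log (n + 1)
  have e : ((harmonic (n + 1) : ℚ) : ℝ) = ∑ k ∈ Finset.range (n + 1), ((k : ℝ) + 1)⁻¹ := by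
    unfold harmonic
    push_cast
    rfl
  rw [e] at h
  push_cast at h
  exact h

/-- **The row bound at the scale `4 / N`.** -/
theorem drow {φ : E (m + 1) → ℝ} {v₀ : E (m + 1)} {κ : ℝ} (h : Sharp φ v₀ κ) {sep β c : ℝ}
    (hsep : 0 < sep) (hsep1 : sep ≤ 1) (hβ : 0 < β) (hβ1 : β ≤ 1) (hc0 : 0 < c) (hc8 : c ≤ sep / 8) :
    ∃ C : ℝ, 0 < C ∧ ∀ (N : ℝ), 1 ≤ N → ∀ (ι : Type) [Fintype ι] (ω q : ι → E (m + 1)) (σ : ℤ → ℝ),
      (∀ i, ‖ω i‖ ≤ 1) → (∀ i j, i ≠ j → sep / N ≤ ‖ω i - ω j‖) →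
      (∀ i i', cl N φ v₀ (ω i) = cl N φ v₀ (ω i') → ∀ τ : ℝ, 0 < τ → τ ≤ 1 →
        φ (ω i) ≤ φ (ω i + (2 / τ) • (q i - q i'))) →
      (∀ i i', cl N φ v₀ (ω i) = cl N φ v₀ (ω i') → ∀ τ : ℝ, 0 < τ → τ ≤ 1 →
        β * τ * ‖ω i - ω i'‖ ≤ ‖(2 : ℝ) • (q i - q i') + τ • (ω i - ω i')‖) →
      ∀ (lab τ : E (m + 1) → ℝ) (b : E (m + 1) → E (m + 1)),
      (∀ i, ∀ u ∈ closedBall ((1 / 2 : ℝ) • ω i) (c / (4 * N)),
        lab u = cl N φ v₀ (ω i) ∧ τ u = σ (cl N φ v₀ (ω i)) ∧ b u + τ u • u = q i) →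
      Row1 (Icc 0 1) (⋃ i, closedBall ((1 / 2 : ℝ) • ω i) (c / (4 * N))) lab b τ (2 * (2 / N)) C := by
  obtain ⟨C1, hC1, hsum⟩ := shell_sum h hsep hsep1 hβ hβ1
  have hω00 := omg_pos (m + 1)
  -- a bound for the labels
  obtain ⟨B, hB0, hBb⟩ : ∃ B : ℝ, 0 ≤ B ∧ ∀ v : E (m + 1), ‖v‖ ≤ 1 → φ v - φ v₀ ≤ B := by
    obtain ⟨L, hL0, hL⟩ := lip_ball h.conv (2 + ‖v₀‖)
    refine ⟨L * (1 + ‖v₀‖), by positivity, fun v hv => ?_⟩
    have h1 := hL v v₀ (by linarith [norm_nonneg v₀]) (by linarith)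
    have h2 := le_abs_self (φ v - φ v₀)
    have h3 : ‖v - v₀‖ ≤ 1 + ‖v₀‖ := (norm_sub_le _ _).trans (by linarith)
    have h4 : L * ‖v - v₀‖ ≤ L * (1 + ‖v₀‖) := by gcongr
    linarith
  have hlogB : 0 ≤ Real.log (1 + 4 * B) := Real.log_nonneg (by linarith)
  refine ⟨(c / 16) ^ (m + 1) * omg (m + 1) * C1 * (1 + Real.log (1 + 4 * B)), by positivity, ?_⟩
  intro N hN ι _ ω q σ hω hsp hA hB lab τ b hval lam c' hl hrl w hw
  have hN0 : 0 < N := by linarith
  obtain ⟨i0, hi0⟩ := mem_iUnion.1 hw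
  set r : ℝ := 2 * (2 / N) with hr
  have hr4 : r = 4 / N := by rw [hr]; ring
  have hr0 : 0 < r := by positivity
  have hc4 : c / (4 * N) ≤ r := by
    rw [hr4]
    calc c / (4 * N) ≤ (16 : ℝ) / (4 * N) := by gcongr; linarith
      _ = 4 / N := by field_simp; norm_num
  have hw0 : ‖(2 : ℝ) • w - ω i0‖ ≤ 1 / N := by
    rw [mem_closedBall, dist_eq_norm] at hi0
    have e3 : (2 : ℝ) • w - ω i0 = (2 : ℝ) • (w - (1 / 2 : ℝ) • ω i0) := by
      rw [smul_sub, smul_smul]
      norm_num
    rw [e3, norm_smul, Real.norm_eq_abs, abs_of_pos (by norm_num : (0:ℝ) < 2)]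
    have h5 : 2 * (c / (4 * N)) = c / 2 / N := by field_simp; ring
    have h6 : c / 2 / N ≤ 1 / N := by gcongr; linarith
    linarith
  set D : ι → Set (E (m + 1)) := fun i => closedBall ((1 / 2 : ℝ) • ω i) (c / (4 * N)) with hD
  set p : E (m + 1) := b w with hp
  set S : ι → Set ℝ := fun i => Sh lam r (σ (cl N φ v₀ (ω i))) (q i) ((1 / 2 : ℝ) • ω i) p w with hS
  have hlabw : lab w = cl N φ v₀ (ω i0) := (hval i0 w hi0).1
  classical
  set V : ι → ℝ≥0∞ := fun i => if cl N φ v₀ (ω i0) ≤ cl N φ v₀ (ω i) then volume (S i) else 0 with hV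
  set F : E (m + 1) → ℝ≥0∞ := fun v => le1 (lab w) (lab v) * ∫⁻ s in Icc c' (c' + 4),
      sI (Icc 0 1) (s - τ v) * oo lam (s - τ v) * ic r ((b v + s • v) - (b w + s • w)) with hF
  -- pointwise
  have hpt : ∀ i, ∀ v ∈ D i, F v ≤ V i := by
    intro i v hv
    obtain ⟨h1, h2, h3⟩ := hval i v hv
    by_cases hc : cl N φ v₀ (ω i0) ≤ cl N φ v₀ (ω i)
    swap
    · have : le1 (lab w) (lab v) = 0 := by
        apply le1_zero
        rw [hlabw, h1]
        exact_mod_cast hc
      simp only [hF]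
      rw [this, zero_mul]
      exact zero_le
    have hVi : V i = volume (S i) := by
      simp only [hV]
      rw [if_pos hc]
    rw [hVi]
    simp only [hF]
    calc le1 (lab w) (lab v) * ∫⁻ s in Icc c' (c' + 4),
          sI (Icc 0 1) (s - τ v) * oo lam (s - τ v) * ic r ((b v + s • v) - (b w + s • w))
        ≤ 1 * ∫⁻ s, (S i).indicator (fun _ => 1) s := by
          refine mul_le_mul' (le1_le _ _) ?_
          · refine (setLIntegral_le_lintegral _ _).trans (lintegral_mono fun s => ?_)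
            show sI (Icc 0 1) (s - τ v) * oo lam (s - τ v) * ic r ((b v + s • v) - (b w + s • w)) ≤
              (S i).indicator (fun _ => 1) s
            by_cases h4 : s - τ v ∈ Icc (0:ℝ) 1
            swap
            · have : sI (Icc 0 1) (s - τ v) = 0 := indicator_of_notMem h4 _
              rw [this, zero_mul, zero_mul]
              exact zero_le
            by_cases h5 : lam ≤ |s - τ v|
            swap
            · rw [oo_zero h5, mul_zero, zero_mul]
              exact zero_le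
            by_cases h6 : ‖(b v + s • v) - (b w + s • w)‖ ≤ r
            swap
            · rw [ic_of_not h6, mul_zero]
              exact zero_le
            have hs : s ∈ S i := by
              rw [abs_of_nonneg h4.1, h2] at h5
              rw [h2] at h4
              refine ⟨h5, h4.2, ?_⟩
              rw [h2] at h3
              have e : (q i + (s - σ (cl N φ v₀ (ω i))) • ((1 / 2 : ℝ) • ω i)) - (p + s • w) =
                  ((b v + s • v) - (b w + s • w)) -
                    (s - σ (cl N φ v₀ (ω i))) • (v - (1 / 2 : ℝ) • ω i) := by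
                rw [← h3]
                module
              rw [e]
              refine (norm_sub_le _ _).trans ?_
              rw [norm_smul, Real.norm_eq_abs, abs_of_nonneg h4.1]
              have h7 : ‖v - (1 / 2 : ℝ) • ω i‖ ≤ c / (4 * N) := by
                simpa [hD, mem_closedBall, dist_eq_norm] using hv
              have h8 : (s - σ (cl N φ v₀ (ω i))) * ‖v - (1 / 2 : ℝ) • ω i‖ ≤ 1 * (c / (4 * N)) := by
                have h9 := h4.2
                gcongr
              linarith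
            rw [indicator_of_mem hs]
            calc sI (Icc 0 1) (s - τ v) * oo lam (s - τ v) * ic r ((b v + s • v) - (b w + s • w))
                ≤ 1 * 1 * 1 := by
                  gcongr
                  · exact sI_le _ _
                  · exact chi_le _ _ _
                  · exact indicator_le_self' (fun _ _ => zero_le_one) _
              _ = 1 := by norm_num
      _ = volume (S i) := by
          rw [one_mul, lintegral_indicator (measurableSet_Sh _ _ _ _ _ _ _), setLIntegral_one]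
  -- sum over the balls
  have hD0 : ∀ i, volume (D i) = ENNReal.ofReal ((c / (4 * N)) ^ (m + 1) * omg (m + 1)) := by
    intro i
    simp only [hD]
    rw [Measure.addHaar_closedBall_center, omg_scale (m + 1) (by positivity)]
  have hstep1 : ∫⁻ v in ⋃ i, D i, F v ≤
      ∑ i, ENNReal.ofReal ((c / (4 * N)) ^ (m + 1) * omg (m + 1)) * V i := by
    calc ∫⁻ v in ⋃ i, D i, F v ≤ ∑' i, ∫⁻ v in D i, F v := lintegral_iUnion_le _ _
      _ = ∑ i, ∫⁻ v in D i, F v := tsum_fintype _
      _ ≤ ∑ i, ENNReal.ofReal ((c / (4 * N)) ^ (m + 1) * omg (m + 1)) * V i := by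
          apply Finset.sum_le_sum
          intro i _
          calc ∫⁻ v in D i, F v ≤ ∫⁻ _v in D i, V i :=
                setLIntegral_mono' measurableSet_closedBall (hpt i)
            _ = _ := by rw [setLIntegral_const, mul_comm, hD0]
  -- sum over the shells
  set n1 : ℕ := ⌊N * B⌋₊ with hn1
  have hcl_nonneg : ∀ i, 0 ≤ cl N φ v₀ (ω i) := by
    intro i
    unfold cl
    apply Int.floor_nonneg.2
    have := h.sharp (ω i)
    have h1 : 0 ≤ κ * ‖ω i - v₀‖ := mul_nonneg h.pos.le (norm_nonneg _)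
    exact mul_nonneg hN0.le (by linarith)
  have hcl_le : ∀ i, cl N φ v₀ (ω i) ≤ n1 := by
    intro i
    have h1 : ((cl N φ v₀ (ω i) : ℤ) : ℝ) ≤ N * B := by
      refine (Int.floor_le _).trans ?_
      have := hBb (ω i) (hω i)
      gcongr
    have h2 : (cl N φ v₀ (ω i)).toNat ≤ n1 := by
      rw [hn1, Nat.le_floor_iff (by positivity)]
      have h3 : (((cl N φ v₀ (ω i)).toNat : ℤ) : ℝ) = ((cl N φ v₀ (ω i) : ℤ) : ℝ) := by
        rw [Int.toNat_of_nonneg (hcl_nonneg i)]
      have h4 : (((cl N φ v₀ (ω i)).toNat : ℤ) : ℝ) = (((cl N φ v₀ (ω i)).toNat : ℕ) : ℝ) := by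
        push_cast
        rfl
      rw [← h4, h3]
      exact h1
    have h5 := hcl_nonneg i
    omega
  set I0 : Finset ι := Finset.univ.filter (fun i => cl N φ v₀ (ω i0) ≤ cl N φ v₀ (ω i)) with hI0
  have hstep2 : ∑ i, V i ≤ ENNReal.ofReal (C1 * lam⁻¹ ^ m * (1 + Real.log ((n1 : ℝ) + 1))) := by
    have e1 : ∑ i, V i = ∑ i ∈ I0, volume (S i) := by
      rw [hI0, Finset.sum_filter]
    rw [e1]
    have hmap : ∀ i ∈ I0, (cl N φ v₀ (ω i) - cl N φ v₀ (ω i0)).toNat ∈ Finset.range (n1 + 1) := by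
      intro i hi
      have h1 := hcl_le i
      have h2 := hcl_nonneg i0
      have h3 := (Finset.mem_filter.1 hi).2
      rw [Finset.mem_range]
      omega
    rw [← Finset.sum_fiberwise_of_maps_to hmap]
    calc ∑ n ∈ Finset.range (n1 + 1), ∑ i ∈ I0 with
          (cl N φ v₀ (ω i) - cl N φ v₀ (ω i0)).toNat = n, volume (S i)
        ≤ ∑ n ∈ Finset.range (n1 + 1), ENNReal.ofReal (C1 * lam⁻¹ ^ m * ((n : ℝ) + 1)⁻¹) := by
          apply Finset.sum_le_sum
          intro n _
          have hJ : ∀ i ∈ I0.filter (fun i => (cl N φ v₀ (ω i) - cl N φ v₀ (ω i0)).toNat = n),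
              cl N φ v₀ (ω i) = cl N φ v₀ (ω i0) + n := by
            intro i hi
            obtain ⟨h1, h2⟩ := Finset.mem_filter.1 hi
            have h3 := (Finset.mem_filter.1 h1).2
            omega
          have h4 := hsum N r lam hN hr4 hl hrl ι ω q hω hsp hA hB (σ (cl N φ v₀ (ω i0) + n)) p w
            (ω i0) (hω i0) hw0 n _ hJ
          refine le_trans (le_of_eq (Finset.sum_congr rfl fun i hi => ?_)) h4
          simp only [hS]
          rw [hJ i hi]
      _ = ENNReal.ofReal (∑ n ∈ Finset.range (n1 + 1), C1 * lam⁻¹ ^ m * ((n : ℝ) + 1)⁻¹) := by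
          rw [ENNReal.ofReal_sum_of_nonneg]
          intro n _
          positivity
      _ ≤ _ := by
          apply ENNReal.ofReal_le_ofReal
          rw [← Finset.mul_sum]
          have := harm n1
          gcongr
  calc ∫⁻ v in ⋃ i, D i, F v
      ≤ ∑ i, ENNReal.ofReal ((c / (4 * N)) ^ (m + 1) * omg (m + 1)) * V i := hstep1
    _ = ENNReal.ofReal ((c / (4 * N)) ^ (m + 1) * omg (m + 1)) * ∑ i, V i := by
        rw [Finset.mul_sum]
    _ ≤ ENNReal.ofReal ((c / (4 * N)) ^ (m + 1) * omg (m + 1)) *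
          ENNReal.ofReal (C1 * lam⁻¹ ^ m * (1 + Real.log ((n1 : ℝ) + 1))) := by gcongr
    _ ≤ _ := by
        rw [← ENNReal.ofReal_mul (by positivity)]
        apply ENNReal.ofReal_le_ofReal
        have h1 : 1 + Real.log ((n1 : ℝ) + 1) ≤ (1 + Real.log (1 + 4 * B)) * ell r := by
          have h2 : (n1 : ℝ) ≤ N * B := Nat.floor_le (by positivity)
          have h3 : (n1 : ℝ) + 1 ≤ (1 + 4 * B) * (1 + 1 / r) := by
            have e : 1 / r = N / 4 := by rw [hr4]; field_simp
            rw [e]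
            nlinarith
          have h4 : Real.log ((n1 : ℝ) + 1) ≤ Real.log (1 + 4 * B) + Real.log (1 + 1 / r) := by
            rw [← Real.log_mul (by positivity) (by positivity)]
            exact Real.log_le_log (by positivity) h3
          have h5 : 0 ≤ Real.log (1 + 1 / r) := by
            apply Real.log_nonneg
            have : 0 < 1 / r := by positivity
            linarith
          unfold ell
          nlinarith
        have h2 : (c / (4 * N)) ^ (m + 1) = (c / 16) ^ (m + 1) * r ^ (m + 1) := by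
          rw [← mul_pow]
          congr 1
          rw [hr4]
          field_simp
          norm_num
        rw [h2, Nat.add_sub_cancel]
        calc (c / 16) ^ (m + 1) * r ^ (m + 1) * omg (m + 1) *
              (C1 * lam⁻¹ ^ m * (1 + Real.log ((n1 : ℝ) + 1)))
            ≤ (c / 16) ^ (m + 1) * r ^ (m + 1) * omg (m + 1) *
              (C1 * lam⁻¹ ^ m * ((1 + Real.log (1 + 4 * B)) * ell r)) := by gcongr
          _ = _ := by ring

end Pool.Agent.W2helper94.CT
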