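import Pool.Agent.W2helper94.CT.G

set_option autoImplicit false

/-!
The critical moment for tubes that leave a set without focusing.
-/

open MeasureTheory Set Metric
open scoped ENNReal NNReal

namespace Pool.Agent.W2helper94.CT

open Pool.Agent.W2helper94.KC Pool.Agent.W2helper94.CV
open Pool.Agent.H803R2.Kak
open Pool.Agent.H810R3

/-- A function which is given on disjoint sets. -/
theorem sum_ind {α : Type} {β : Type} [AddCommMonoid β] {ι : Type} [Fintype ι] {D : ι → Set α}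
    (hD : Pairwise (Function.onFun Disjoint D)) (g : ι → α → β) {i : ι} {u : α} (hu : u ∈ D i) :
    ∑ j, (D j).indicator (g j) u = g i u := by
  rw [Finset.sum_eq_single i]
  · exact indicator_of_mem hu _
  · intro j _ hj
    exact indicator_of_notMem (fun h => disjoint_left.1 (hD hj) h hu) _
  · intro h
    exact absurd (Finset.mem_univ i) h

/-- **The critical moment of the sum of the boxes that leave a set without focusing.** -/
theorem front_moment {m : ℕ} {φ : E (m + 1) → ℝ} {v₀ : E (m + 1)} {κ : ℝ} (h : Sharp φ v₀ κ)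
    {K sep β : ℝ} (hK : 0 ≤ K) (hsep : 0 < sep) (hsep1 : sep ≤ 1) (hβ : 0 < β) (hβ1 : β ≤ 1) :
    ∃ C : ℝ, 0 < C ∧ ∀ N : ℝ, 1 ≤ N → ∀ (ι : Type) [Fintype ι] (ω : ι → E (m + 1))
      (f : ι → Fin (m + 1) → Tub.Space (m + 1)) (a : ι → Tub.Space (m + 1)) (s : ℤ → ℝ)
      (p : ι → E (m + 1)),
      (∀ i, ‖ω i‖ ≤ 1) → (∀ i j, i ≠ j → sep / N ≤ ‖ω i - ω j‖) →
      (∀ i, Orthonormal ℝ (Fin.cons (Tub.nor (ω i)) (f i) :
        Fin (m + 1 + 1) → Tub.Space (m + 1))) →
      (∀ i, (Tub.box N (Tub.nor (ω i)) (f i) (a i) ∩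
        closedBall (WithLp.toLp 2 (p i, s (cl N φ v₀ (ω i)))) (K * N)).Nonempty) →
      (∀ i, ∀ y ∈ Tub.box N (Tub.nor (ω i)) (f i) (a i), y.snd ≤ s (cl N φ v₀ (ω i))) →
      (∀ i i', cl N φ v₀ (ω i) = cl N φ v₀ (ω i') → ∀ t : ℝ, 0 < t →
        t ≤ ((m + 1 : ℕ) + 1 + K) * N ^ 2 →
        φ (ω i) ≤ φ (ω i + (2 * t)⁻¹ • (p i - p i'))) →
      (∀ i i', cl N φ v₀ (ω i) = cl N φ v₀ (ω i') → ∀ t : ℝ, 0 < t →
        t ≤ ((m + 1 : ℕ) + 1 + K) * N ^ 2 →
        β * (2 * t) * ‖ω i - ω i'‖ ≤ ‖(p i - p i') + (2 * t) • (ω i - ω i')‖) →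
      ∫⁻ y, Tub.Fb N ω f a y ^ (1 + 1 / ((m + 1 : ℕ) : ℝ)) ≤
        ENNReal.ofReal (C * N ^ (2 * ((m + 1) + 1)) *
          ((1 + Real.log N) ^ ((m + 1) + 2)) ^ (1 / ((m + 1 : ℕ) : ℝ))) := by
  have hc0 : 0 < sep / 8 := by positivity
  obtain ⟨C0, hC0, hrow⟩ := drow h hsep hsep1 hβ hβ1 hc0 le_rfl
  obtain ⟨C, hC, hmain⟩ := box_moment2 (d := m + 1) (by omega) hK hsep1 hc0 le_rfl hC0
  refine ⟨C, hC, ?_⟩
  intro N hN ι _ ω f a s p hω hsp hf hz hside hA hB
  have hN0 : 0 < N := by linarith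
  set M : ℝ := scal (m + 1) K N with hM
  have hMe : M = 4 * (((m + 1 : ℕ) : ℝ) + 1 + K) * N ^ 2 := by rw [hM, scal]; ring
  have hM0 : 0 < M := by rw [hMe]; positivity
  set c : ℝ := sep / 8 with hc
  set D : ι → Set (E (m + 1)) := fun i => closedBall ((1 / 2 : ℝ) • ω i) (c / (4 * N)) with hD
  have hdis : Pairwise (Function.onFun Disjoint D) := by
    intro i j hij
    apply closedBall_disjoint_closedBall
    rw [dist_eq_norm, ← smul_sub, norm_smul, Real.norm_eq_abs, abs_of_pos (by norm_num : (0:ℝ) < 1/2)]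
    have h1 := hsp i j hij
    have h6 : c / (4 * N) = (sep / N) / 32 := by
      rw [hc]; field_simp; ring
    have h8 : 0 < sep / N := by positivity
    rw [h6]
    linarith
  have hDm : ∀ i, MeasurableSet (D i) := fun i => measurableSet_closedBall
  set q : ι → E (m + 1) := fun i => M⁻¹ • p i with hq
  set σ : ℤ → ℝ := fun j => -4 / M * s j with hσ
  set lab : E (m + 1) → ℝ := fun u => ∑ i, (D i).indicator (fun _ => ((cl N φ v₀ (ω i) : ℤ) : ℝ)) u
    with hlab
  set τ : E (m + 1) → ℝ := fun u => ∑ i, (D i).indicator (fun _ => σ (cl N φ v₀ (ω i))) u with hτ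
  set b : E (m + 1) → E (m + 1) := fun u =>
    ∑ i, (D i).indicator (fun u => q i - σ (cl N φ v₀ (ω i)) • u) u with hb
  have hlabm : Measurable lab :=
    Finset.measurable_sum _ (fun i _ => measurable_const.indicator (hDm i))
  have hτm : Measurable τ :=
    Finset.measurable_sum _ (fun i _ => measurable_const.indicator (hDm i))
  have hbm : Measurable b :=
    Finset.measurable_sum _ (fun i _ =>
      ((measurable_id.const_smul (σ (cl N φ v₀ (ω i)))).const_sub (q i)).indicator (hDm i))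
  have hval : ∀ i, ∀ u ∈ D i,
      lab u = cl N φ v₀ (ω i) ∧ τ u = σ (cl N φ v₀ (ω i)) ∧ b u + τ u • u = q i := by
    intro i u hu
    have h1 : lab u = cl N φ v₀ (ω i) :=
      sum_ind hdis (fun i _ => ((cl N φ v₀ (ω i) : ℤ) : ℝ)) hu
    have h2 : τ u = σ (cl N φ v₀ (ω i)) := sum_ind hdis (fun i _ => σ (cl N φ v₀ (ω i))) hu
    have h3 : b u = q i - σ (cl N φ v₀ (ω i)) • u :=
      sum_ind hdis (fun i u => q i - σ (cl N φ v₀ (ω i)) • u) hu
    refine ⟨h1, h2, ?_⟩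
    rw [h2, h3, sub_add_cancel]
  have hside' : ∀ i, ∀ y ∈ Tub.box N (Tub.nor (ω i)) (f i) (a i),
      -4 / M * (y.snd - s (cl N φ v₀ (ω i))) ∈ Icc (0:ℝ) 1 := by
    intro i y hy
    have h1 := hside i y hy
    obtain ⟨-, h2⟩ := box_vertex hN hK (hω i) (hf i) hy (hz i)
    have e2 : (y - (WithLp.toLp 2 (p i, s (cl N φ v₀ (ω i))) : Tub.Space (m + 1))).snd =
        y.snd - s (cl N φ v₀ (ω i)) := rfl
    rw [e2] at h2
    have e5 : -4 / M * (y.snd - s (cl N φ v₀ (ω i))) = (4 * (s (cl N φ v₀ (ω i)) - y.snd)) / M := by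
      ring
    rw [e5]
    constructor
    · apply div_nonneg _ hM0.le
      linarith
    · rw [div_le_one hM0, hMe]
      have h3 := (abs_le.1 h2).1
      nlinarith
  refine hmain N hN ι ω f a (fun i => WithLp.toLp 2 (p i, s (cl N φ v₀ (ω i)))) ω (Icc 0 1)
    (⋃ i, D i) lab b τ hω hsp hf hz (fun i => by rw [sub_self, norm_zero]; positivity)
    measurableSet_Icc hside' ?_ hlabm hbm hτm (MeasurableSet.iUnion hDm) ?_
    (fun i => subset_iUnion D i) ?_
  · intro i u hu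
    obtain ⟨-, h2, h3⟩ := hval i u hu
    exact ⟨h3, h2⟩
  · apply iUnion_subset
    intro i u hu
    simp only [hD, mem_closedBall, dist_eq_norm] at hu
    have h1 : ‖u‖ ≤ 1 := by
      have e5 : u = (u - (1 / 2 : ℝ) • ω i) + (1 / 2 : ℝ) • ω i := by abel
      rw [e5]
      refine (norm_add_le _ _).trans ?_
      rw [norm_smul, Real.norm_eq_abs, abs_of_pos (by norm_num : (0:ℝ) < 1/2)]
      have h6 : c / (4 * N) ≤ 1 / 2 := by
        rw [div_le_div_iff₀ (by positivity) (by norm_num), hc]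
        nlinarith
      have := hω i
      linarith
    simpa using h1
  · refine hrow N hN ι ω q σ hω hsp ?_ ?_ lab τ b hval
    · intro i i' hii τ' hτ0 hτ1
      have h1 := hA i i' hii (τ' * M / 4) (by positivity) (by
        rw [hMe]
        have h2 : 0 < (((m + 1 : ℕ) : ℝ) + 1 + K) * N ^ 2 := by positivity
        nlinarith)
      have e1 : (2 * (τ' * M / 4))⁻¹ • (p i - p i') = (2 / τ') • (q i - q i') := by
        simp only [hq]
        rw [← smul_sub, smul_smul]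
        congr 1
        field_simp
        norm_num
      rw [e1] at h1
      exact h1
    · intro i i' hii τ' hτ0 hτ1
      have h1 := hB i i' hii (τ' * M / 4) (by positivity) (by
        rw [hMe]
        have h2 : 0 < (((m + 1 : ℕ) : ℝ) + 1 + K) * N ^ 2 := by positivity
        nlinarith)
      have e1 : (2 : ℝ) • (q i - q i') + τ' • (ω i - ω i') =
          (2 / M) • ((p i - p i') + (2 * (τ' * M / 4)) • (ω i - ω i')) := by
        simp only [hq]
        rw [← smul_sub, smul_smul, smul_add, smul_smul]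
        congr 2
        field_simp
        norm_num
      rw [e1, norm_smul, Real.norm_eq_abs, abs_of_pos (by positivity : 0 < 2 / M)]
      calc β * τ' * ‖ω i - ω i'‖ = (2 / M) * (β * (2 * (τ' * M / 4)) * ‖ω i - ω i'‖) := by
            field_simp
            ring
        _ ≤ _ := by gcongr

/-- Shortest segments do not focus. -/
theorem spread_of_shortest {d : ℕ} {x x' q : E d} {t : ℝ} (ht : 0 < t)
    (h1 : 2 * t * ‖x‖ ≤ ‖q + (2 * t) • x‖) (h2 : 2 * t * ‖x'‖ ≤ ‖-q + (2 * t) • x'‖) :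
    t * ‖x - x'‖ ≤ ‖q + t • (x - x')‖ := by
  have e1 : ‖q + (2 * t) • x‖ ^ 2 = ‖q‖ ^ 2 + 4 * t * inner ℝ q x + 4 * t ^ 2 * ‖x‖ ^ 2 := by
    rw [norm_add_sq_real, inner_smul_right, norm_smul, Real.norm_eq_abs, mul_pow, sq_abs]
    ring
  have e2 : ‖-q + (2 * t) • x'‖ ^ 2 = ‖q‖ ^ 2 - 4 * t * inner ℝ q x' + 4 * t ^ 2 * ‖x'‖ ^ 2 := by
    rw [norm_add_sq_real, inner_smul_right, norm_smul, Real.norm_eq_abs, mul_pow, sq_abs, norm_neg,
      inner_neg_left]
    ring
  have h1' : (2 * t * ‖x‖) ^ 2 ≤ ‖q + (2 * t) • x‖ ^ 2 := pow_le_pow_left₀ (by positivity) h1 2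
  have h2' : (2 * t * ‖x'‖) ^ 2 ≤ ‖-q + (2 * t) • x'‖ ^ 2 := pow_le_pow_left₀ (by positivity) h2 2
  rw [e1] at h1'
  rw [e2] at h2'
  have h3 : (t * ‖x - x'‖) ^ 2 ≤ ‖q + t • (x - x')‖ ^ 2 := by
    have e3 : ‖q + t • (x - x')‖ ^ 2 = ‖q‖ ^ 2 + 2 * t * inner ℝ q (x - x') + t ^ 2 * ‖x - x'‖ ^ 2 := by
      rw [norm_add_sq_real, inner_smul_right, norm_smul, Real.norm_eq_abs, mul_pow, sq_abs]
      ring
    rw [e3, inner_sub_right]
    nlinarith
  exact le_of_sq_le_sq h3 (norm_nonneg _)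

end Pool.Agent.W2helper94.CT
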